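import Pool.Agent.Lib.MP_d308c3_co.LT.Lac
import Pool.Agent.Lib.MP_d308c3_co.Cut

/-! From states to windows: windows between lacunary times share few active points. -/

namespace Pool.Agent.Lib.MP_d308c3_co.LT

open Finset Cut
open scoped Classical

variable {I : Type*} {a b : I → ℝ} {t m : ℕ → ℝ} {Y : Finset I}

/-- size of the symmetric difference of two states -/
noncomputable def sd (U : ℕ → I → Prop) (Y : Finset I) (k l : ℕ) : ℕ :=
  (out U Y k l).card + (out U Y l k).card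

theorem sd_comm (U : ℕ → I → Prop) (Y : Finset I) (k l : ℕ) : sd U Y k l = sd U Y l k :=
  add_comm _ _

theorem out_tri (U : ℕ → I → Prop) (Y : Finset I) (k l r : ℕ) :
    (out U Y k r).card ≤ (out U Y k l).card + (out U Y l r).card := by
  refine (card_le_card fun p hp => ?_).trans (card_union_le _ _)
  simp only [mem_union, mem_out] at hp ⊢
  tauto

theorem sd_tri (U : ℕ → I → Prop) (Y : Finset I) (k l r : ℕ) :
    sd U Y k r ≤ sd U Y k l + sd U Y l r := by
  have h1 := out_tri U Y k l r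
  have h2 := out_tri U Y r l k
  unfold sd; omega

theorem sd_self (U : ℕ → I → Prop) (Y : Finset I) (k : ℕ) : sd U Y k k = 0 := by
  simp [sd, out]

theorem sd_sum (U : ℕ → I → Prop) (Y : Finset I) (k : ℕ → ℕ) (i l : ℕ) :
    sd U Y (k i) (k (i + l)) ≤ ∑ j ∈ Ico i (i + l), sd U Y (k j) (k (j + 1)) := by
  induction l with
  | zero => simp [sd_self]
  | succ l ih =>
    rw [← add_assoc, sum_Ico_succ_top (Nat.le_add_right _ _)]
    exact (sd_tri U Y _ (k (i + l)) _).trans (Nat.add_le_add_right ih _)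

theorem keep {i s e : ℕ} (h : (t i ≤ t s ∧ t s ≤ t e) ∨ (t e ≤ t s ∧ t s ≤ t i)) {p q : I}
    (h1 : St a b t m i p) (h2 : ¬ St a b t m s p) (h3 : St a b t m s q) (h4 : ¬ St a b t m i q)
    (h5 : St a b t m e p) : St a b t m e q := by
  unfold St at *
  rw [not_lt] at h2 h4
  have k1 : 0 < (t s - t i) * (a q - a p) := by nlinarith
  have k2 : 0 ≤ (t e - t s) * (a q - a p) := by
    rcases h with h | h
    · refine mul_nonneg (by linarith [h.2]) (not_lt.1 fun c => ?_)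
      nlinarith [h.1]
    · refine mul_nonneg_of_nonpos_of_nonpos (by linarith [h.1]) (not_lt.1 fun c => ?_)
      nlinarith [h.2]
  nlinarith

/-- an intermediate state is close to the start if the end is -/
theorem tp_out {i s e D : ℕ} (h : (t i ≤ t s ∧ t s ≤ t e) ∨ (t e ≤ t s ∧ t s ≤ t i))
    (d1 : (out (St a b t m) Y i s).card ≤ (out (St a b t m) Y s i).card + D)
    (d2 : (out (St a b t m) Y s i).card ≤ (out (St a b t m) Y i s).card + D) :
    (out (St a b t m) Y i s).card ≤ sd (St a b t m) Y i e + D ∧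
      (out (St a b t m) Y s i).card ≤ sd (St a b t m) Y i e + D := by
  unfold sd
  by_cases c : ∃ p ∈ out (St a b t m) Y i s, St a b t m e p
  · obtain ⟨p, hp, c⟩ := c
    rw [mem_out] at hp
    have : out (St a b t m) Y s i ⊆ out (St a b t m) Y e i := fun q hq => by
      rw [mem_out] at hq ⊢
      exact ⟨hq.1, keep h hp.2.1 hp.2.2 hq.2.1 hq.2.2 c, hq.2.2⟩
    have := card_le_card this
    omega
  · have : out (St a b t m) Y i s ⊆ out (St a b t m) Y i e := fun p hp => by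
      have h1 := mem_out.1 hp
      exact mem_out.2 ⟨h1.1, h1.2.1, fun d => c ⟨p, hp, d⟩⟩
    have := card_le_card this
    omega

theorem shared {k0 k1 k2 : ℕ} (h01 : k0 ≤ k1) (h12 : k1 ≤ k2)
    (hm : ∀ k l, k0 ≤ k → k ≤ l → l ≤ k2 → t k ≤ t l) :
    (Ch (St a b t m) Y k0 k1 ∩ Ch (St a b t m) Y k1 k2).card ≤
      2 * (sd (St a b t m) Y k0 k1 + sd (St a b t m) Y k1 k2 + Dr (St a b t m) Y k0 k2) := by
  set U := St a b t m with hU
  set B := Ch U Y k0 k1 ∩ Ch U Y k1 k2 with hB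
  have L : ∀ s, k0 ≤ s → s ≤ k1 → (out U Y k1 s).card ≤ sd U Y k1 k0 + Dr U Y k0 k1 ∧
      (out U Y s k1).card ≤ sd U Y k1 k0 + Dr U Y k0 k1 := fun s c d =>
    tp_out (.inr ⟨hm _ _ le_rfl c (d.trans h12), hm _ _ c d h12⟩)
      (card_out_le h01 le_rfl c d) (card_out_le c d h01 le_rfl)
  have R : ∀ s, k1 ≤ s → s ≤ k2 → (out U Y k1 s).card ≤ sd U Y k1 k2 + Dr U Y k1 k2 ∧
      (out U Y s k1).card ≤ sd U Y k1 k2 + Dr U Y k1 k2 := fun s c d =>
    tp_out (.inl ⟨hm _ _ h01 c d, hm _ _ (h01.trans c) d le_rfl⟩)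
      (card_out_le le_rfl h12 c d) (card_out_le c d le_rfl h12)
  have ord : ∀ {p q : I} {s : ℕ}, b p + t k1 * a p ≤ b q + t k1 * a q →
      0 ≤ (t s - t k1) * (a q - a p) → U s p → U s q := fun {p q s} c d e => by
    simp only [hU, St] at e ⊢
    nlinarith
  have h1 : (B.filter (U k1)).card ≤
      sd U Y k1 k0 + Dr U Y k0 k1 + (sd U Y k1 k2 + Dr U Y k1 k2) := by
    rcases (B.filter (U k1)).eq_empty_or_nonempty with c | c
    · simp [c]
    obtain ⟨q, hq, hmax⟩ := exists_max_image _ (fun p => b p + t k1 * a p) c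
    obtain ⟨q1, q2⟩ := mem_inter.1 (mem_filter.1 hq).1
    obtain ⟨_, _, s, _, _, s1, s2, _, s3⟩ := mem_Ch.1 q1
    obtain ⟨_, _, r, _, _, r1, r2, _, r3⟩ := mem_Ch.1 q2
    have : B.filter (U k1) ⊆ out U Y k1 s ∪ out U Y k1 r := fun p hp => by
      obtain ⟨p1, p2⟩ := mem_filter.1 hp
      have p3 := Ch_subset (mem_inter.1 p1).1
      rw [mem_union, mem_out, mem_out]
      rcases le_total (a p) (a q) with d | d
      · exact .inr ⟨p3, p2, fun e => r3 (ord (hmax p hp) (mul_nonneg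
          (sub_nonneg.2 (hm _ _ h01 r1 r2)) (sub_nonneg.2 d)) e)⟩
      · exact .inl ⟨p3, p2, fun e => s3 (ord (hmax p hp) (mul_nonneg_of_nonpos_of_nonpos
          (sub_nonpos.2 (hm _ _ s1 s2 h12)) (sub_nonpos.2 d)) e)⟩
    exact ((card_le_card this).trans (card_union_le _ _)).trans
      (Nat.add_le_add (L s s1 s2).1 (R r r1 r2).1)
  have h2 : (B.filter fun p => ¬ U k1 p).card ≤
      sd U Y k1 k0 + Dr U Y k0 k1 + (sd U Y k1 k2 + Dr U Y k1 k2) := by
    rcases (B.filter fun p => ¬ U k1 p).eq_empty_or_nonempty with c | c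
    · simp [c]
    obtain ⟨q, hq, hmin⟩ := exists_min_image _ (fun p => b p + t k1 * a p) c
    obtain ⟨q1, q2⟩ := mem_inter.1 (mem_filter.1 hq).1
    obtain ⟨_, s, _, s1, s2, _, _, s3, _⟩ := mem_Ch.1 q1
    obtain ⟨_, r, _, r1, r2, _, _, r3, _⟩ := mem_Ch.1 q2
    have : (B.filter fun p => ¬ U k1 p) ⊆ out U Y s k1 ∪ out U Y r k1 := fun p hp => by
      obtain ⟨p1, p2⟩ := mem_filter.1 hp
      have p3 := Ch_subset (mem_inter.1 p1).1
      rw [mem_union, mem_out, mem_out]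
      rcases le_total (a q) (a p) with d | d
      · exact .inr ⟨p3, ord (hmin p hp) (mul_nonneg
          (sub_nonneg.2 (hm _ _ h01 r1 r2)) (sub_nonneg.2 d)) r3, p2⟩
      · exact .inl ⟨p3, ord (hmin p hp) (mul_nonneg_of_nonpos_of_nonpos
          (sub_nonpos.2 (hm _ _ s1 s2 h12)) (sub_nonpos.2 d)) s3, p2⟩
    exact ((card_le_card this).trans (card_union_le _ _)).trans
      (Nat.add_le_add (L s s1 s2).2 (R r r1 r2).2)
  have h3 := card_filter_add_card_filter_not (s := B) (U k1)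
  have h4 := Dr_add (U := U) (Y := Y) h01 h12
  rw [sd_comm U Y k1 k0] at h1 h2
  omega

theorem tree {k : ℕ → ℕ} {S : ℕ} (hk : ∀ i j, i ≤ j → j ≤ S → k i ≤ k j)
    (hm : ∀ x y, k 0 ≤ x → x ≤ y → y ≤ k S → t x ≤ t y) (n : ℕ) : ∀ i l, i + l ≤ S → l ≤ 2 ^ n →
    ∑ j ∈ Ico i (i + l), (Ch (St a b t m) Y (k j) (k (j + 1))).card ≤
      (Ch (St a b t m) Y (k i) (k (i + l))).card +
        2 * n * (∑ j ∈ Ico i (i + l), sd (St a b t m) Y (k j) (k (j + 1)) +
          Dr (St a b t m) Y (k i) (k (i + l))) := by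
  set U := St a b t m with hU
  induction n with
  | zero =>
    intro i l _ h
    obtain rfl | rfl : l = 0 ∨ l = 1 := by omega
    · simp
    · simp
  | succ n ih =>
    intro i l hS h
    obtain ⟨l1, l2, rfl, h1, h2⟩ : ∃ l1 l2, l = l1 + l2 ∧ l1 ≤ 2 ^ n ∧ l2 ≤ 2 ^ n :=
      ⟨l / 2, l - l / 2, by omega, by omega, by omega⟩
    have a1 := ih i l1 (by omega) h1
    have a2 := ih (i + l1) l2 (by omega) h2
    have m1 : k i ≤ k (i + l1) := hk _ _ (by omega) (by omega)
    have m2 : k (i + l1) ≤ k (i + l1 + l2) := hk _ _ (by omega) (by omega)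
    have a3 := shared (a := a) (b := b) (m := m) (Y := Y) m1 m2 fun x y c d e =>
      hm x y ((hk 0 i (by omega) (by omega)).trans c) d (e.trans (hk _ S (by omega) le_rfl))
    have a4 := card_union_add_card_inter (Ch U Y (k i) (k (i + l1)))
      (Ch U Y (k (i + l1)) (k (i + l1 + l2)))
    have a5 := card_le_card (union_subset (Ch_mono (U := U) (Subset.refl Y) le_rfl m2)
      (Ch_mono (U := U) (Subset.refl Y) m1 le_rfl))
    have a6 := sd_sum U Y k i l1
    have a7 := sd_sum U Y k (i + l1) l2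
    have a8 := Dr_add (U := U) (Y := Y) m1 m2
    rw [← add_assoc, ← sum_Ico_consecutive _ (Nat.le_add_right i l1) (Nat.le_add_right _ l2),
      ← sum_Ico_consecutive _ (Nat.le_add_right i l1) (Nat.le_add_right _ l2), ← a8]
    rw [← hU, ← a8] at a3
    nlinarith

theorem card_symmDiff (X : Finset I) (k l : ℕ) :
    (symmDiff (Up X a b (t k) (m k)) (Up X a b (t l) (m l))).card = sd (St a b t m) X k l := by
  unfold sd
  rw [← card_union_of_disjoint]
  · congr 1
    ext p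
    simp only [mem_symmDiff, Up, mem_filter, mem_union, mem_out, St]
    tauto
  · exact disjoint_left.2 fun p h1 h2 => (mem_out.1 h1).2.2 (mem_out.1 h2).2.1

theorem card_Up (X : Finset I) (k : ℕ) :
    (Up X a b (t k) (m k)).card = cnt (St a b t m) X k := by
  unfold Up cnt
  congr 1

/-- (LT) for chosen states of a run, on either side of a centre -/
theorem lt_states {ε : ℝ} (hε : 0 < ε) : ∃ C : ℝ, 0 ≤ C ∧ ∀ {I : Type*} (X : Finset I)
    (a b : I → ℝ) (t m : ℕ → ℝ) (k : ℕ → ℕ) (S : ℕ) (τ : ℝ),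
    (t (k S) < τ ∧ ∀ j < S, 2 * (τ - t (k (j + 1))) ≤ τ - t (k j)) ∨
      (τ < t (k 0) ∧ ∀ j < S, 2 * (t (k j) - τ) ≤ t (k (j + 1)) - τ) →
    ∑ j ∈ range S, (sd (St a b t m) X (k j) (k (j + 1)) : ℝ) ≤
      C * (S : ℝ) ^ ε * (X.card + ∑ j ∈ range S,
        |(cnt (St a b t m) X (k (j + 1)) : ℝ) - cnt (St a b t m) X (k j)|) := by
  obtain ⟨C, C0, hC⟩ := lt hε
  refine ⟨C, C0, fun {I} X a b t m k S τ h => ?_⟩
  rcases h with ⟨h0, h1⟩ | ⟨h0, h1⟩
  · have h2 := hC X (fun p => -a p) (fun p => b p + τ * a p) (fun j => τ - t (k j))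
      (fun j => m (k j)) S (sub_pos.2 h0) h1
    have e : ∀ j, Up X (fun p => -a p) (fun p => b p + τ * a p) (τ - t (k j)) (m (k j)) =
        Up X a b (t (k j)) (m (k j)) := fun j =>
      filter_congr fun p _ => by constructor <;> intro c <;> linarith
    simpa only [e, card_symmDiff, card_Up] using h2
  · have h2 := hC X a (fun p => b p + τ * a p) (fun j => t (k (S - j)) - τ)
      (fun j => m (k (S - j))) S (by simpa using h0) fun j hj => by
        have := h1 (S - (j + 1)) (by omega)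
        rwa [show S - (j + 1) + 1 = S - j by omega] at this
    have e : ∀ j, Up X a (fun p => b p + τ * a p) (t (k j) - τ) (m (k j)) =
        Up X a b (t (k j)) (m (k j)) := fun j =>
      filter_congr fun p _ => by constructor <;> intro c <;> linarith
    simp only [e, card_symmDiff, card_Up] at h2
    rw [← sum_range_reflect, ← sum_range_reflect (fun j =>
      |(cnt (St a b t m) X (k (j + 1)) : ℝ) - cnt (St a b t m) X (k j)|)]
    convert h2 using 2
    · rename_i j hj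
      have := mem_range.1 hj
      rw [sd_comm, show S - 1 - j + 1 = S - j by omega, show S - 1 - j = S - (j + 1) by omega]
    · congr 1
      refine sum_congr rfl fun j hj => ?_
      have := mem_range.1 hj
      rw [abs_sub_comm, show S - 1 - j + 1 = S - j by omega, show S - 1 - j = S - (j + 1) by omega]

/-- (LT') windows between lacunary times: the sum of `Phi` is almost `Phi` of the union -/
theorem lac_windows {ε : ℝ} (hε : 0 < ε) : ∃ C : ℝ, 1 ≤ C ∧ ∀ {I : Type*} (Y : Finset I)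
    (a b : I → ℝ) (t m : ℕ → ℝ) (k : ℕ → ℕ) (S : ℕ) (τ : ℝ),
    (∀ i j, i ≤ j → j ≤ S → k i ≤ k j) → (∀ x y, k 0 ≤ x → x ≤ y → y ≤ k S → t x ≤ t y) →
    (t (k S) < τ ∧ ∀ j < S, 2 * (τ - t (k (j + 1))) ≤ τ - t (k j)) ∨
      (τ < t (k 0) ∧ ∀ j < S, 2 * (t (k j) - τ) ≤ t (k (j + 1)) - τ) →
    ∑ j ∈ range S, (Phi (St a b t m) Y (k j) (k (j + 1)) : ℝ) ≤
      C * (S : ℝ) ^ ε * Phi (St a b t m) Y (k 0) (k S) := by
  have δ0 : 0 < ε / 2 := by linarith
  obtain ⟨C, C0, hC⟩ := lt_states δ0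
  refine ⟨1 + 2 * (1 + 2 / (ε / 2)) * (C + 1), le_add_of_nonneg_right (by positivity),
    fun {I} Y a b t m k S τ hk hm h => ?_⟩
  rcases Nat.eq_zero_or_pos S with rfl | hS
  · simp only [range_zero, sum_empty]; positivity
  set U := St a b t m with hU
  have S1 : (1 : ℝ) ≤ S := by exact_mod_cast hS
  set s : ℝ := (S : ℝ) ^ (ε / 2) with hs
  have s1 : 1 ≤ s := Real.one_le_rpow S1 δ0.le
  have s2 : (S : ℝ) ^ ε = s * s := by rw [hs, ← Real.rpow_add (by linarith)]; ring_nf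
  have eo : ∀ x y, k 0 ≤ x → x ≤ k S → k 0 ≤ y → y ≤ k S →
      out U (Ch U Y (k 0) (k S)) x y = out U Y x y := fun x y c1 c2 c3 c4 => by
    ext p
    exact ⟨fun hp => mem_out.2 ⟨Ch_subset (mem_out.1 hp).1, (mem_out.1 hp).2⟩,
      fun hp => mem_out.2 ⟨out_subset_Ch c1 c2 c3 c4 hp, (mem_out.1 hp).2⟩⟩
  have k0 : ∀ j ≤ S, k 0 ≤ k j ∧ k j ≤ k S := fun j hj =>
    ⟨hk _ _ (Nat.zero_le _) hj, hk _ _ hj le_rfl⟩
  have dsum : ∀ n ≤ S, ∑ j ∈ range n, Dr U Y (k j) (k (j + 1)) = Dr U Y (k 0) (k n) := by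
    intro n
    induction n with
    | zero => intro _; simp [Dr]
    | succ n ih =>
      intro hn
      rw [sum_range_succ, ih (by omega), Dr_add (k0 n (by omega)).1 (hk _ _ (by omega) hn)]
  have h1 := hC (Ch U Y (k 0) (k S)) a b t m k S τ h
  rw [← hU] at h1
  have e1 : ∑ j ∈ range S, (sd U (Ch U Y (k 0) (k S)) (k j) (k (j + 1)) : ℝ) =
      ∑ j ∈ range S, (sd U Y (k j) (k (j + 1)) : ℝ) := sum_congr rfl fun j hj => by
    have c1 := k0 j (mem_range.1 hj).le
    have c2 := k0 (j + 1) (mem_range.1 hj)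
    simp only [sd, eo _ _ c1.1 c1.2 c2.1 c2.2, eo _ _ c2.1 c2.2 c1.1 c1.2]
  have e2 : ∑ j ∈ range S, |(cnt U (Ch U Y (k 0) (k S)) (k (j + 1)) : ℝ) -
      cnt U (Ch U Y (k 0) (k S)) (k j)| ≤ Dr U Y (k 0) (k S) := by
    rw [← dsum S le_rfl]
    push_cast
    refine sum_le_sum fun j hj => ?_
    have c1 := k0 j (mem_range.1 hj).le
    have c2 := k0 (j + 1) (mem_range.1 hj)
    have c3 := cnt_sub U (Ch U Y (k 0) (k S)) (k j) (k (j + 1))
    rw [eo _ _ c1.1 c1.2 c2.1 c2.2, eo _ _ c2.1 c2.2 c1.1 c1.2, ← cnt_sub] at c3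
    have c4 := natAbs_cnt_le_of_le (U := U) (Y := Y) (hk j (j + 1) (by omega) (mem_range.1 hj))
    rw [← c3] at c4
    have c5 : |(cnt U (Ch U Y (k 0) (k S)) (k (j + 1)) : ℤ) - cnt U (Ch U Y (k 0) (k S)) (k j)| ≤
        Dr U Y (k j) (k (j + 1)) := by rw [← Int.natCast_natAbs]; exact_mod_cast c4
    exact_mod_cast c5
  have h2 := tree (a := a) (b := b) (m := m) (Y := Y) hk hm (Nat.clog 2 S) 0 S (by omega)
    (Nat.le_pow_clog (by norm_num) S)
  rw [← hU, zero_add, ← range_eq_Ico] at h2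
  have h3 : ∑ j ∈ range S, ((Ch U Y (k j) (k (j + 1))).card : ℝ) ≤ (Ch U Y (k 0) (k S)).card +
      2 * (Nat.clog 2 S : ℝ) * (∑ j ∈ range S, (sd U Y (k j) (k (j + 1)) : ℝ) +
        Dr U Y (k 0) (k S)) := by exact_mod_cast h2
  have h4 : (Nat.clog 2 S : ℝ) ≤ (1 + 2 / (ε / 2)) * s := by
    have b1 : (2 : ℝ) ^ (Nat.clog 2 S).pred ≤ S := by
      rcases hS.nat_succ_le.eq_or_lt with e | e
      · rw [← e]; simp
      · exact_mod_cast (Nat.pow_pred_clog_lt_self (by norm_num : 1 < 2) e).le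
    have b2 := Real.log_le_log (by positivity) b1
    rw [Real.log_pow] at b2
    have b3 := Real.log_le_rpow_div (by linarith : (0 : ℝ) ≤ S) δ0
    rw [← hs] at b3
    have b4 := Real.log_two_gt_d9
    have b5 : (Nat.clog 2 S : ℝ) ≤ (Nat.clog 2 S).pred + 1 := by
      exact_mod_cast Nat.le_succ_of_pred_le (le_refl (Nat.clog 2 S).pred)
    have b6 : (0 : ℝ) ≤ (Nat.clog 2 S).pred := by positivity
    have b7 : (1 + 2 / (ε / 2)) * s = s + 2 * (s / (ε / 2)) := by ring
    nlinarith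
  have e3 : ∑ j ∈ range S, (Phi U Y (k j) (k (j + 1)) : ℝ) =
      ∑ j ∈ range S, ((Ch U Y (k j) (k (j + 1))).card : ℝ) + Dr U Y (k 0) (k S) := by
    rw [← dsum S le_rfl]
    simp only [Phi]
    push_cast
    rw [sum_add_distrib]
  have e4 : (Phi U Y (k 0) (k S) : ℝ) = (Ch U Y (k 0) (k S)).card + Dr U Y (k 0) (k S) := by
    simp only [Phi]; push_cast; rfl
  rw [e1] at h1
  rw [e3, s2]
  set V := ∑ j ∈ range S, (sd U Y (k j) (k (j + 1)) : ℝ)
  set P := (Phi U Y (k 0) (k S) : ℝ)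
  have P0 : 0 ≤ P := by positivity
  have c0 : (0 : ℝ) ≤ (Ch U Y (k 0) (k S)).card := by positivity
  have d0 : (0 : ℝ) ≤ Dr U Y (k 0) (k S) := by positivity
  have V0 : 0 ≤ V := sum_nonneg fun _ _ => by positivity
  have x1 : V ≤ C * s * P :=
    h1.trans (mul_le_mul_of_nonneg_left (by linarith) (by positivity))
  have x2 : V + Dr U Y (k 0) (k S) ≤ (C + 1) * s * P := by nlinarith
  have x3 := mul_le_mul h4 x2 (by linarith) (by positivity)
  have x4 : P ≤ s * s * P := by nlinarith [mul_le_mul s1 s1 zero_le_one (by linarith)]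
  nlinarith

end Pool.Agent.Lib.MP_d308c3_co.LT
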