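import Pool.Agent.Lib.MP_d308c3_co.LT.Round

/-! Lacunary times: the number of changes is almost linear. -/

namespace Pool.Agent.Lib.MP_d308c3_co.LT

open Finset

variable {I : Type*}

/-- the points of `X` above the state `(t, m)` -/
noncomputable def Up (X : Finset I) (a b : I → ℝ) (t m : ℝ) : Finset I :=
  X.filter fun p => m < b p + t * a p

theorem exists_inj_near (X : Finset I) (a : I → ℝ) {δ : ℝ} (hδ : 0 < δ) :
    ∃ a' : I → ℝ, Set.InjOn a' X ∧ ∀ p ∈ X, |a' p - a p| ≤ δ := by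
  classical
  induction X using Finset.induction_on with
  | empty => exact ⟨a, by simp, by simp⟩
  | insert q X hq ih =>
    obtain ⟨a', h1, h2⟩ := ih
    obtain ⟨y, hy, hy'⟩ := (Set.Ioo_infinite (show a q < a q + δ by linarith)).exists_notMem_finset
      (X.image a')
    have e : ∀ p ∈ X, Function.update a' q y p = a' p := fun p hp =>
      Function.update_of_ne (fun c : p = q => hq (c ▸ hp)) _ _
    refine ⟨Function.update a' q y, ?_, fun p hp => ?_⟩
    · rw [coe_insert]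
      refine (Set.injOn_insert (by simpa using hq)).2 ⟨fun p hp r hr c => ?_, ?_⟩
      · rw [e p hp, e r hr] at c
        exact h1 hp hr c
      · rintro ⟨p, hp, c⟩
        rw [e p hp, Function.update_self] at c
        exact hy' (mem_image.2 ⟨p, hp, c⟩)
    · rcases mem_insert.1 hp with rfl | hp
      · rw [Function.update_self, abs_le]
        constructor <;> linarith [hy.1, hy.2]
      · rw [e p hp]; exact h2 p hp

/-- finitely many states do not see a small generic perturbation -/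
theorem exists_generic (X : Finset I) (a b : I → ℝ) (t m : ℕ → ℝ) (S : ℕ) :
    ∃ (a' b' : I → ℝ) (m' : ℕ → ℝ), Set.InjOn a' X ∧ Set.InjOn b' X ∧ ∀ j ≤ S, ∀ p ∈ X,
      (m' j < b' p + t j * a' p ↔ m j < b p + t j * a p) ∧ m' j ≠ b' p + t j * a' p := by
  classical
  obtain ⟨g, g0, hg⟩ : ∃ g : ℝ, 0 < g ∧ ∀ j ≤ S, ∀ p ∈ X, m j < b p + t j * a p →
      m j + g ≤ b p + t j * a p := by
    let P := (range (S + 1) ×ˢ X).filter fun x => m x.1 < b x.2 + t x.1 * a x.2
    have hP : ∀ j ≤ S, ∀ p ∈ X, m j < b p + t j * a p → (j, p) ∈ P := fun j hj p hp c =>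
      mem_filter.2 ⟨mem_product.2 ⟨mem_range.2 (Nat.lt_succ_of_le hj), hp⟩, c⟩
    rcases P.eq_empty_or_nonempty with h | h
    · refine ⟨1, one_pos, fun j hj p hp c => ?_⟩
      have := hP j hj p hp c
      rw [h] at this
      simp at this
    · obtain ⟨x, hx, hmin⟩ := exists_min_image P (fun x => b x.2 + t x.1 * a x.2 - m x.1) h
      refine ⟨_, sub_pos.2 (mem_filter.1 hx).2, fun j hj p hp c => ?_⟩
      have := hmin _ (hP j hj p hp c)
      simp only at this
      linarith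
  set τ := ∑ j ∈ range (S + 1), |t j| with hτ
  have τ0 : 0 ≤ τ := sum_nonneg fun _ _ => abs_nonneg _
  have d0 : 0 < g / (4 * (1 + τ)) := by positivity
  have d1 : g / (4 * (1 + τ)) * (4 * (1 + τ)) = g := div_mul_cancel₀ _ (by positivity)
  set δ := g / (4 * (1 + τ))
  obtain ⟨a', a1, a2⟩ := exists_inj_near X a d0
  obtain ⟨b', b1, b2⟩ := exists_inj_near X b d0
  refine ⟨a', b', fun j => m j + g / 2, a1, b1, fun j hj p hp => ?_⟩
  have h1 : |t j| ≤ τ :=
    single_le_sum (f := fun j => |t j|) (fun _ _ => abs_nonneg _)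
      (mem_range.2 (Nat.lt_succ_of_le hj))
  have h2 : |t j * (a' p - a p)| ≤ τ * δ := by
    rw [abs_mul]; exact mul_le_mul h1 (a2 p hp) (abs_nonneg _) τ0
  have h3 := b2 p hp
  rw [abs_le] at h2 h3
  by_cases c : m j < b p + t j * a p
  · have h4 := hg j hj p hp c
    have h5 : m j + g / 2 < b' p + t j * a' p := by linarith [h2.1, h3.1]
    exact ⟨iff_of_true h5 c, h5.ne⟩
  · have h5 : b' p + t j * a' p < m j + g / 2 := by linarith [h2.2, h3.2, not_lt.1 c]
    exact ⟨iff_of_false h5.not_gt c, h5.ne'⟩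

section
variable [DecidableEq I] (X : Finset I) (a b : I → ℝ) (t m : ℕ → ℝ) (j : ℕ)

theorem sum_abs_ee : ∑ p ∈ X, |ee a b t m j p| =
    (symmDiff (Up X a b (t j) (m j)) (Up X a b (t (j + 1)) (m (j + 1)))).card := by
  have : symmDiff (Up X a b (t j) (m j)) (Up X a b (t (j + 1)) (m (j + 1))) = X.filter fun p =>
      ¬ (m j < b p + t j * a p ↔ m (j + 1) < b p + t (j + 1) * a p) := by
    ext p
    simp only [Up, mem_symmDiff, mem_filter]
    tauto
  rw [this, ← sum_boole]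
  refine sum_congr rfl fun p _ => ?_
  unfold ee ind
  by_cases c : m j < b p + t j * a p <;> by_cases d : m (j + 1) < b p + t (j + 1) * a p <;>
    simp [c, d]

omit [DecidableEq I] in
theorem sum_ee : ∑ p ∈ X, ee a b t m j p =
    ((Up X a b (t (j + 1)) (m (j + 1))).card : ℝ) - (Up X a b (t j) (m j)).card := by
  simp only [ee, ind, Up, sum_sub_distrib, sum_boole]

end

theorem rounds {ε : ℝ} (hε : 0 < ε) : ∃ (E : ℕ) (C : ℝ), 1 ≤ E ∧ 0 ≤ C ∧ ∀ S : ℕ, 1 ≤ S →
    ∃ R : ℕ, (2 / (E : ℝ)) ^ R * S ≤ 1 ∧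
      6 * 3 ^ R * (1 + R * (b0 E S : ℝ)) + 2 ≤ C * (S : ℝ) ^ ε := by
  obtain ⟨k, hk⟩ := exists_nat_gt (3 / ε)
  have k0 : (0 : ℝ) < k := (by positivity : (0 : ℝ) < 3 / ε).trans hk
  have k1 : 0 < k := by exact_mod_cast k0
  set δ : ℝ := 1 / k with hδ
  have δ0 : 0 < δ := by positivity
  have δ1 : 3 * δ ≤ ε := by
    rw [div_lt_iff₀ hε] at hk
    rw [hδ, mul_one_div, div_le_iff₀ k0]
    linarith
  set c : ℝ := (1 + ((2 * 3 ^ k : ℕ) + 1) ^ 2) ^ 2 * (4 * (288 : ℝ) ^ δ / δ + 2) with hc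
  have c0 : 0 ≤ c := by positivity
  refine ⟨2 * 3 ^ k, 20 + 54 * c, by have := Nat.one_le_pow k 3 (by norm_num); omega,
    by positivity, fun S hS => ⟨Nat.clog (3 ^ k) S, ?_, ?_⟩⟩
  · have h1 : (S : ℝ) ≤ (3 ^ k) ^ Nat.clog (3 ^ k) S := by
      exact_mod_cast Nat.le_pow_clog (Nat.one_lt_pow k1.ne' (by norm_num)) S
    have h2 : (2 : ℝ) / ((2 * 3 ^ k : ℕ) : ℝ) = (3 ^ k)⁻¹ := by push_cast; field_simp
    rw [h2, inv_pow, inv_mul_le_iff₀ (by positivity)]
    simpa using h1
  · set R := Nat.clog (3 ^ k) S with hR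
    have S1 : (1 : ℝ) ≤ S := by exact_mod_cast hS
    set s : ℝ := (S : ℝ) ^ δ with hs
    have s1 : 1 ≤ s := Real.one_le_rpow S1 δ0.le
    have h1 : (3 : ℝ) ^ R ≤ 3 * s := by
      rcases hS.eq_or_lt with e | e
      · rw [hR, ← e, Nat.clog_one_right]; linarith
      · have h2 := Nat.pow_pred_clog_lt_self (Nat.one_lt_pow k1.ne' (by norm_num : 1 < 3)) e
        rw [← hR] at h2
        have h3 : ((3 : ℝ) ^ R.pred) ^ k ≤ S := by
          rw [← pow_mul, mul_comm, pow_mul]
          exact_mod_cast h2.le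
        have h4 : (3 : ℝ) ^ R.pred ≤ s := by
          have := Real.rpow_le_rpow (by positivity) h3 δ0.le
          rwa [hδ, one_div, Real.pow_rpow_inv_natCast (by positivity) k1.ne', ← one_div] at this
        have h5 : (3 : ℝ) ^ R ≤ 3 ^ (R.pred + 1) :=
          pow_le_pow_right₀ (by norm_num) (Nat.le_succ_of_pred_le le_rfl)
        rw [pow_succ] at h5
        linarith
    have h2 : (R : ℝ) ≤ 3 * s := by
      refine le_trans ?_ h1
      exact_mod_cast (Nat.lt_pow_self (by norm_num : 1 < 3)).le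
    have h3 : (b0 (2 * 3 ^ k) S : ℝ) ≤ c * s := by
      have a0 : (0 : ℝ) < 288 * S := by positivity
      have a1 : (2 : ℝ) ^ Nat.log 2 (288 * S * (288 * S)) ≤ 288 * S * (288 * S) := by
        exact_mod_cast Nat.pow_log_le_self 2 (by positivity : 288 * S * (288 * S) ≠ 0)
      have a2 := Real.log_le_log (by positivity) a1
      rw [Real.log_pow, Real.log_mul a0.ne' a0.ne'] at a2
      have a3 := Real.log_le_rpow_div a0.le δ0
      rw [Real.mul_rpow (by norm_num) (by positivity), ← hs] at a3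
      have a4 := Real.log_two_gt_d9
      have a5 : (0 : ℝ) ≤ Nat.log 2 (288 * S * (288 * S)) := by positivity
      have a6 : (Nat.log 2 (288 * S * (288 * S)) : ℝ) + 2 ≤ (4 * (288 : ℝ) ^ δ / δ + 2) * s := by
        have : (4 * (288 : ℝ) ^ δ / δ + 2) * s = 4 * (288 ^ δ * s / δ) + 2 * s := by ring
        nlinarith
      have a7 := mul_le_mul_of_nonneg_left a6
        (by positivity : (0 : ℝ) ≤ (1 + (((2 * 3 ^ k : ℕ) : ℝ) + 1) ^ 2) ^ 2)
      rw [← mul_assoc _ _ s, ← hc] at a7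
      unfold b0
      exact_mod_cast a7
    have h4 : s ^ 3 ≤ (S : ℝ) ^ ε := by
      rw [hs, ← Real.rpow_natCast, ← Real.rpow_mul (by positivity)]
      exact Real.rpow_le_rpow_of_exponent_le S1 (by push_cast; linarith)
    have h5 : (R : ℝ) * b0 (2 * 3 ^ k) S ≤ 3 * s * (c * s) :=
      mul_le_mul h2 h3 (by positivity) (by positivity)
    have h6 : (3 : ℝ) ^ R * (1 + R * b0 (2 * 3 ^ k) S) ≤ 3 * s * (1 + 3 * s * (c * s)) :=
      mul_le_mul h1 (by linarith) (by positivity) (by positivity)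
    have h7 : s ≤ s ^ 3 := by simpa using pow_le_pow_right₀ s1 (by norm_num : 1 ≤ 3)
    have h8 := mul_le_mul_of_nonneg_left h4 (by positivity : 0 ≤ 20 + 54 * c)
    nlinarith

/-- (LT) states at lacunary times: the changes are almost linear in points and drivers -/
theorem lt {ε : ℝ} (hε : 0 < ε) : ∃ C : ℝ, 0 ≤ C ∧ ∀ {I : Type*} [DecidableEq I] (X : Finset I)
    (a b : I → ℝ) (t m : ℕ → ℝ) (S : ℕ), 0 < t S → (∀ j < S, 2 * t (j + 1) ≤ t j) →
    ∑ j ∈ range S,
      ((symmDiff (Up X a b (t j) (m j)) (Up X a b (t (j + 1)) (m (j + 1)))).card : ℝ) ≤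
      C * (S : ℝ) ^ ε * (X.card + ∑ j ∈ range S,
        |((Up X a b (t (j + 1)) (m (j + 1))).card : ℝ) - (Up X a b (t j) (m j)).card|) := by
  obtain ⟨E, C, hE, C0, hC⟩ := rounds hε
  refine ⟨C, C0, fun {I} _ X a b t m S t0 ht => ?_⟩
  rcases Nat.eq_zero_or_pos S with rfl | hS
  · simp only [range_zero, sum_empty]; positivity
  obtain ⟨a', b', m', ia, ib, h⟩ := exists_generic X a b t m S
  have e : ∀ j ≤ S, Up X a b (t j) (m j) = Up X a' b' (t j) (m' j) := fun j hj =>
    filter_congr fun p hp => (h j hj p hp).1.symm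
  obtain ⟨R, r1, r2⟩ := hC S hS
  have h1 := ltR (a := a') (b := b') (m := m') hS hE t0 ht R X (fun _ => range S) 0 ia ib
    fun _ _ => Conv.range S
  have eA : ∀ j ∈ range S, At X (fun _ => range S) j = X := fun j hj =>
    filter_true_of_mem fun _ _ => hj
  have e1 : VV S (ee a' b' t m') X (fun _ => range S) = ∑ j ∈ range S,
      ((symmDiff (Up X a b (t j) (m j)) (Up X a b (t (j + 1)) (m (j + 1)))).card : ℝ) :=
    sum_congr rfl fun j hj => by
      rw [eA j hj, sum_abs_ee, e j (mem_range.1 hj).le, e (j + 1) (mem_range.1 hj)]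
  have e2 : DD S (ee a' b' t m') X (fun _ => range S) = ∑ j ∈ range S,
      |((Up X a b (t (j + 1)) (m (j + 1))).card : ℝ) - (Up X a b (t j) (m j)).card| :=
    sum_congr rfl fun j hj => by
      rw [eA j hj, sum_ee, e j (mem_range.1 hj).le, e (j + 1) (mem_range.1 hj)]
  have e3 : SS S (ee a' b' t m') X (fun _ => range S) ≤ S := by
    simpa [SS] using sum_le_card_nsmul (range S) _ 1 fun j _ =>
      sw_le_one (At X (fun _ => range S) j) (ee a' b' t m' j)
  rw [e1, e2] at h1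
  set D := ∑ j ∈ range S,
    |((Up X a b (t (j + 1)) (m (j + 1))).card : ℝ) - (Up X a b (t j) (m j)).card|
  have D0 : 0 ≤ D := sum_nonneg fun _ _ => abs_nonneg _
  have n1 : ((X.card - 1 : ℕ) : ℝ) ≤ X.card := by exact_mod_cast Nat.sub_le _ _
  have n0 : (0 : ℝ) ≤ X.card := by positivity
  have x1 : (2 / (E : ℝ)) ^ R * (SS S (ee a' b' t m') X (fun _ => range S) * (X.card - 1 : ℕ)) ≤
      X.card := by
    have y1 := mul_le_mul e3 n1 (by positivity) (by positivity)
    have y2 := mul_le_mul_of_nonneg_left y1 (by positivity : 0 ≤ (2 / (E : ℝ)) ^ R)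
    nlinarith
  have x2 : (3 : ℝ) ^ R ≤ C * (S : ℝ) ^ ε := by
    have : (0 : ℝ) ≤ 3 ^ R * (R * b0 E S) := by positivity
    have : (0 : ℝ) ≤ 3 ^ R := by positivity
    linarith
  have x3 := mul_le_mul_of_nonneg_right x2 D0
  have x4 := mul_le_mul_of_nonneg_right r2 n0
  simp only [Nat.cast_zero, add_zero] at h1
  linarith

end Pool.Agent.Lib.MP_d308c3_co.LT
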