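import Mathlib

/-! Structure of a finite set of reals: quantile centres, shells and light slots. -/

namespace Pool.Agent.Lib.MP_d308c3_co.LT

open Finset

variable {I : Type*}

/-- among `L` fibres one carries at most the share `1 / L` of the weight -/
theorem exists_light (X : Finset I) (w : I → ℝ) (hw : ∀ i ∈ X, 0 ≤ w i) (f : I → ℤ) {L : ℕ}
    (hL : 1 ≤ L) : ∃ h : ℕ, h < L ∧
      (L : ℝ) * ∑ i ∈ X.filter (fun i => f i = h), w i ≤ ∑ i ∈ X, w i := by
  classical
  have hne : (range L).Nonempty := nonempty_range_iff.2 (by omega)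
  obtain ⟨h, hh, hmin⟩ := exists_min_image (range L)
    (fun h : ℕ => ∑ i ∈ X.filter (fun i => f i = h), w i) hne
  refine ⟨h, mem_range.1 hh, ?_⟩
  have h1 : (L : ℝ) * ∑ i ∈ X.filter (fun i => f i = h), w i ≤
      ∑ k ∈ range L, ∑ i ∈ X.filter (fun i => f i = k), w i := by
    have := card_nsmul_le_sum (range L)
      (fun k : ℕ => ∑ i ∈ X.filter (fun i => f i = k), w i) _ hmin
    simpa using this
  refine h1.trans ?_
  simp only [sum_filter]
  rw [sum_comm]
  refine sum_le_sum fun i hi => ?_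
  rw [← sum_filter, sum_const, nsmul_eq_mul]
  have : ((range L).filter fun k : ℕ => f i = k).card ≤ 1 := by
    refine card_le_one.2 fun a ha b hb => ?_
    have h2 := (mem_filter.1 ha).2
    have h3 := (mem_filter.1 hb).2
    omega
  have h4 : (((range L).filter fun k : ℕ => f i = k).card : ℝ) ≤ 1 := by exact_mod_cast this
  nlinarith [hw i hi]

/-- quantile blocks with separating marks -/
theorem exists_blocks (X : Finset I) (x : I → ℝ) (hx : Set.InjOn x X) {E : ℕ} (hE : 1 ≤ E) :
    ∃ (β : I → ℕ) (s : ℕ → ℝ), Monotone s ∧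
      (∀ i ∈ X, β i < E ∧ s (β i) < x i ∧ x i < s (β i + 1)) ∧
      ∀ a, ((X.filter fun i => β i = a).card - 1) * E ≤ X.card - 1 := by
  classical
  rcases X.eq_empty_or_nonempty with rfl | hne
  · exact ⟨fun _ => 0, fun _ => 0, monotone_const, by simp, by simp⟩
  set q := (X.card - 1) / E + 1 with hq
  let rk : I → ℕ := fun i => (X.filter fun k => x k < x i).card
  have rlt : ∀ i ∈ X, ∀ k ∈ X, x i < x k → rk i < rk k := by
    intro i hi k _ h
    refine card_lt_card ⟨fun l hl => ?_, fun hh => ?_⟩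
    · rw [mem_filter] at hl ⊢
      exact ⟨hl.1, hl.2.trans h⟩
    · have := (mem_filter.1 (hh (mem_filter.2 ⟨hi, h⟩))).2
      exact lt_irrefl _ this
  have rn : ∀ i ∈ X, rk i < X.card := by
    intro i hi
    refine card_lt_card ⟨filter_subset _ _, fun hh => ?_⟩
    exact lt_irrefl _ (mem_filter.1 (hh hi)).2
  have rinj : Set.InjOn rk X := by
    intro i hi k hk h
    rcases lt_trichotomy (x i) (x k) with c | c | c
    · have := rlt i hi k hk c; omega
    · exact hx hi hk c
    · have := rlt k hk i hi c; omega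
  let β : I → ℕ := fun i => rk i / q
  have q0 : 0 < q := Nat.succ_pos _
  have bm : ∀ i ∈ X, ∀ k ∈ X, β i < β k → x i < x k := by
    intro i hi k hk h
    by_contra c
    rcases (not_lt.1 c).eq_or_lt with c | c
    · rw [hx hk hi c] at h; exact lt_irrefl _ h
    · have := Nat.div_le_div_right (c := q) (rlt k hk i hi c).le
      exact absurd h (not_lt.2 this)
  obtain ⟨δ, δ0, hδ⟩ : ∃ δ : ℝ, 0 < δ ∧ ∀ i ∈ X, ∀ k ∈ X, x i < x k → x i + δ < x k := by
    let P := (X ×ˢ X).filter fun p => x p.1 < x p.2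
    rcases P.eq_empty_or_nonempty with h | h
    · refine ⟨1, one_pos, fun i hi k hk c => ?_⟩
      have : (i, k) ∈ P := mem_filter.2 ⟨mem_product.2 ⟨hi, hk⟩, c⟩
      rw [h] at this
      simp at this
    · obtain ⟨p, hp, hmin⟩ := exists_min_image P (fun p => x p.2 - x p.1) h
      have h0 := (mem_filter.1 hp).2
      refine ⟨(x p.2 - x p.1) / 2, by linarith, fun i hi k hk c => ?_⟩
      have := hmin (i, k) (mem_filter.2 ⟨mem_product.2 ⟨hi, hk⟩, c⟩)
      simp only at this
      linarith
  obtain ⟨i0, hi0, hmax⟩ := exists_max_image X x hne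
  let y : ℕ → I → ℝ := fun a i => if a ≤ β i then x i - δ else x i0 + 1
  refine ⟨β, fun a => X.inf' hne (y a), fun a a' h => ?_, fun i hi => ⟨?_, ?_, ?_⟩, fun a => ?_⟩
  · refine le_inf' _ _ fun i hi => (inf'_le _ hi).trans ?_
    simp only [y]
    have := hmax i hi
    split_ifs with h1 h2 h2
    · exact le_rfl
    · linarith
    · omega
    · exact le_rfl
  · have h1 := rn i hi
    have h2 : X.card - 1 < q * E := by
      rw [hq, mul_comm]
      exact Nat.lt_mul_div_succ _ (by omega)
    exact (Nat.div_lt_iff_lt_mul q0).2 (by rw [mul_comm]; omega)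
  · refine (inf'_le _ hi).trans_lt ?_
    simp only [y, le_refl, if_true]
    linarith
  · refine (lt_inf'_iff _).2 fun k hk => ?_
    simp only [y]
    split_ifs with h1
    · have := hδ i hi k hk (bm i hi k hk (by omega))
      linarith
    · have := hmax i hi
      linarith
  · have h1 : (X.filter fun i => β i = a).card ≤ (Ico (a * q) (a * q + q)).card := by
      refine card_le_card_of_injOn rk (fun i hi => ?_) (rinj.mono fun i hi => (mem_filter.1 hi).1)
      have h2 : rk i / q = a := (mem_filter.1 hi).2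
      have h3 := Nat.div_add_mod (rk i) q
      have h4 := Nat.mod_lt (rk i) q0
      rw [h2, mul_comm] at h3
      simp only [coe_Ico, Set.mem_Ico]
      omega
    rw [Nat.card_Ico] at h1
    have h2 : (X.filter fun i => β i = a).card - 1 ≤ (X.card - 1) / E := by omega
    exact (Nat.mul_le_mul_right E h2).trans (Nat.div_mul_le_self _ _)

/-- shells of ratio four with a light slot at the inner end -/
theorem exists_shells (X : Finset I) (w : I → ℝ) (hw : ∀ i ∈ X, 0 ≤ w i) (r : I → ℝ)
    (hr : ∀ i ∈ X, 0 < r i) {L : ℕ} (hL : 1 ≤ L) : ∃ (k : I → ℤ) (Z : Finset I), Z ⊆ X ∧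
      (L : ℝ) * ∑ i ∈ Z, w i ≤ ∑ i ∈ X, w i ∧
      (∀ i ∈ X, ∀ l ∈ X, k i = k l → r i ≤ 4 * r l) ∧
      ∀ i ∈ X, ∀ l ∈ X, i ∉ Z → k l < k i → r i ≤ 8 * L * (r i - r l) := by
  classical
  have L0 : (0 : ℝ) < L := by exact_mod_cast hL
  let f : I → ℤ := fun i => ⌊(L : ℝ) * (r i / (4 : ℝ) ^ Int.log 4 (r i) - 1)⌋
  obtain ⟨h, hh, hl⟩ := exists_light X w hw f hL
  set θ : ℝ := 1 + h / L with hθ
  have hL' : (h : ℝ) + 1 ≤ L := by exact_mod_cast hh
  have e1 : (h : ℝ) / L * L = h := div_mul_cancel₀ _ L0.ne'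
  have e2 : (1 : ℝ) / L * L = 1 := div_mul_cancel₀ _ L0.ne'
  have θ1 : 1 ≤ θ := by
    have : (0 : ℝ) ≤ h / L := by positivity
    linarith
  have θ2 : θ + 1 / L ≤ 2 := by
    have : (h : ℝ) / L + 1 / L ≤ 1 := by
      rw [← add_div, div_le_one L0]; exact hL'
    linarith
  have i0 : (0 : ℝ) < 1 / L := by positivity
  let k : I → ℤ := fun i => Int.log 4 (r i / θ)
  have k1 : ∀ i ∈ X, (4 : ℝ) ^ k i * θ ≤ r i := fun i hi => by
    have := Int.zpow_log_le_self (R := ℝ) (b := 4) (by norm_num)
      (div_pos (hr i hi) (by linarith : 0 < θ))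
    rw [le_div_iff₀ (by linarith)] at this
    simpa using this
  have k2 : ∀ i ∈ X, r i < 4 * ((4 : ℝ) ^ k i * θ) := fun i hi => by
    have := Int.lt_zpow_succ_log_self (R := ℝ) (b := 4) (by norm_num) (r i / θ)
    rw [div_lt_iff₀ (by linarith), zpow_add_one₀ (by norm_num)] at this
    simp only [Nat.cast_ofNat] at this
    simp only [k]
    linarith
  refine ⟨k, X.filter fun i => f i = h, filter_subset _ _, hl, fun i hi l hl e => ?_,
    fun i hi l hl hz hk => ?_⟩
  · have h1 := k2 i hi
    have h2 := k1 l hl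
    rw [e] at h1
    linarith
  · set c : ℝ := (4 : ℝ) ^ k i with hc
    have c0 : 0 < c := by positivity
    have h1 : c * (θ + 1 / L) ≤ r i := by
      by_contra hn
      rw [not_le] at hn
      apply hz
      refine mem_filter.2 ⟨hi, ?_⟩
      have a1 : c * θ ≤ r i := k1 i hi
      have hlog : Int.log 4 (r i) = k i := by
        apply le_antisymm
        · apply Int.le_of_lt_add_one
          rw [← Int.lt_zpow_iff_log_lt (by norm_num) (hr i hi), zpow_add_one₀ (by norm_num)]
          simp only [Nat.cast_ofNat]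
          nlinarith
        · rw [← Int.zpow_le_iff_le_log (by norm_num) (hr i hi)]
          simp only [Nat.cast_ofNat]
          nlinarith
      simp only [f, hlog]
      rw [Int.floor_eq_iff, ← hc]
      have b1 : θ ≤ r i / c := by rw [le_div_iff₀ c0]; linarith
      have b2 : r i / c < θ + 1 / L := by rw [div_lt_iff₀ c0]; linarith
      push_cast
      constructor <;> nlinarith
    have h2 : r l < c * θ := by
      refine (k2 l hl).trans_le ?_
      have : (4 : ℝ) ^ (k l + 1) ≤ c := zpow_le_zpow_right₀ (by norm_num) (by omega)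
      rw [zpow_add_one₀ (by norm_num)] at this
      nlinarith
    have h3 := k2 i hi
    rw [← hc] at h3
    have h4 : c * (1 / L) ≤ r i - r l := by linarith
    have h5 : c ≤ L * (r i - r l) := by
      have := mul_le_mul_of_nonneg_left h4 L0.le
      nlinarith
    nlinarith

/-- centres `sig`, classes `u` and an exceptional set `Z` for the values `x` on `X` -/
structure Cls (X : Finset I) (x : I → ℝ) (E : ℕ) (K : ℝ) (Z : Finset I) (C : Finset ℝ)
    (sig : I → ℝ) (u : I → ℕ × Bool × ℤ) : Prop where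
  sub : Z ⊆ X
  card : C.card ≤ E + 1
  mem : ∀ i ∈ X, sig i ∈ C
  ne : ∀ i ∈ X, x i ≠ sig i
  small : ∀ c, ((X.filter fun i => u i = c).card - 1) * E ≤ X.card - 1
  same : ∀ i ∈ X, ∀ k ∈ X, u i = u k →
    sig i = sig k ∧ |x i - sig i| ≤ 4 * |x k - sig k| ∧ (sig i < x i ↔ sig k < x k)
  far : ∀ i ∈ X, ∀ k ∈ X, i ∉ Z → k ∉ Z → u i ≠ u k →
    |x i - sig i| ≤ K * |x i - x k| ∧ |sig i - sig k| ≤ K * |x i - x k|

theorem oneD (X : Finset I) (x : I → ℝ) (hx : Set.InjOn x X) (w : I → ℝ)
    (hw : ∀ i ∈ X, 0 ≤ w i) {E L : ℕ} (hE : 1 ≤ E) (hL : 1 ≤ L) :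
    ∃ Z C sig u, Cls X x E (8 * L) Z C sig u ∧ (L : ℝ) * ∑ i ∈ Z, w i ≤ 2 * ∑ i ∈ X, w i := by
  classical
  have L1 : (1 : ℝ) ≤ L := by exact_mod_cast hL
  obtain ⟨β, s, hs, hb, hc⟩ := exists_blocks X x hx hE
  let Δ : I → ℝ := fun i => s (β i + 1) - s (β i)
  have Δ0 : ∀ i ∈ X, 0 < Δ i := fun i hi => by
    have := hb i hi
    simp only [Δ]; linarith [this.2.1, this.2.2]
  let f : I → ℤ := fun i => ⌊(L : ℝ) * (3 * ((x i - s (β i)) / Δ i) - 1)⌋
  obtain ⟨h, hh, hl⟩ := exists_light X w hw f hL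
  have hL' : (h : ℝ) + 1 ≤ L := by exact_mod_cast hh
  have h0 : (0 : ℝ) ≤ h := by positivity
  let sd : I → Bool := fun i => decide (f i < h)
  let sig : I → ℝ := fun i => if f i < h then s (β i) else s (β i + 1)
  have fl : ∀ i ∈ X, f i < h → 3 * L * (x i - s (β i)) < (L + h) * Δ i := fun i hi c => by
    have h1 : (L : ℝ) * (3 * ((x i - s (β i)) / Δ i) - 1) < h := by
      have := Int.floor_lt.1 c
      simpa using this
    have h2 := mul_lt_mul_of_pos_right h1 (Δ0 i hi)
    have h3 : (x i - s (β i)) / Δ i * Δ i = x i - s (β i) := div_mul_cancel₀ _ (Δ0 i hi).ne'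
    have h4 : (L : ℝ) * (3 * ((x i - s (β i)) / Δ i) - 1) * Δ i =
        3 * L * ((x i - s (β i)) / Δ i * Δ i) - L * Δ i := by ring
    rw [h4, h3] at h2
    linarith
  have fr : ∀ i ∈ X, ∀ g : ℕ, (g : ℤ) ≤ f i → (L + g) * Δ i ≤ 3 * L * (x i - s (β i)) :=
    fun i hi g c => by
    have h1 : (g : ℝ) ≤ (L : ℝ) * (3 * ((x i - s (β i)) / Δ i) - 1) := by
      have := Int.le_floor.1 c
      simpa using this
    have h2 := mul_le_mul_of_nonneg_right h1 (Δ0 i hi).le
    have h3 : (x i - s (β i)) / Δ i * Δ i = x i - s (β i) := div_mul_cancel₀ _ (Δ0 i hi).ne'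
    have h4 : (L : ℝ) * (3 * ((x i - s (β i)) / Δ i) - 1) * Δ i =
        3 * L * ((x i - s (β i)) / Δ i * Δ i) - L * Δ i := by ring
    rw [h4, h3] at h2
    linarith
  have pl : ∀ i ∈ X, f i < h → x i - s (β i) ≤ 2 * (s (β i + 1) - x i) := fun i hi c => by
    have h1 := fl i hi c
    have h2 := Δ0 i hi
    have h3 : (L : ℝ) * (3 * (x i - s (β i))) ≤ L * (2 * Δ i) := by nlinarith
    have h4 := le_of_mul_le_mul_left h3 (by linarith)
    simp only [Δ] at h4
    linarith
  have pr : ∀ i ∈ X, ¬ f i < h → s (β i + 1) - x i ≤ 2 * (x i - s (β i)) := fun i hi c => by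
    have h1 := fr i hi h (not_lt.1 c)
    have h2 := Δ0 i hi
    have h3 : (L : ℝ) * Δ i ≤ L * (3 * (x i - s (β i))) := by nlinarith
    have h4 := le_of_mul_le_mul_left h3 (by linarith)
    simp only [Δ] at h4
    linarith
  have ne : ∀ i ∈ X, x i ≠ sig i := fun i hi => by
    have := hb i hi
    simp only [sig]
    split_ifs
    · exact this.2.1.ne'
    · exact this.2.2.ne
  obtain ⟨k, Z, hZ, hZw, k1, k2⟩ := exists_shells X w hw (fun i => |x i - sig i|)
    (fun i hi => abs_pos.2 (sub_ne_zero.2 (ne i hi))) hL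
  have key : ∀ i ∈ X, ∀ l ∈ X, β i < β l → |x i - sig i| ≤ 3 * (x l - x i) ∧
      |x l - sig l| ≤ 3 * (x l - x i) ∧ |sig i - sig l| ≤ 3 * (x l - x i) := by
    intro i hi l hl c
    have a1 := hb i hi
    have a2 := hb l hl
    have a3 : s (β i + 1) ≤ s (β l) := hs c
    have p1 := pl i hi
    have p2 := pr i hi
    have p3 := pl l hl
    have p4 := pr l hl
    simp only [sig]
    split_ifs with c1 c2 c2
    all_goals
      first | (have := p1 c1) | (have := p2 c1)
      first | (have := p3 c2) | (have := p4 c2)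
      refine ⟨abs_le.2 ⟨?_, ?_⟩, abs_le.2 ⟨?_, ?_⟩, abs_le.2 ⟨?_, ?_⟩⟩ <;>
        linarith [a1.2.1, a1.2.2, a2.2.1, a2.2.2]
  have key2 : ∀ i ∈ X, ∀ l ∈ X, β i = β l → f i < h → h < f l →
      0 < x l - x i ∧ Δ i ≤ 3 * L * (x l - x i) := by
    intro i hi l hl c c1 c2
    have a1 := fl i hi c1
    have a2 := fr l hl (h + 1) (by push_cast; omega)
    have a3 : Δ l = Δ i := by simp only [Δ, c]
    rw [a3, ← c] at a2
    push_cast at a2
    have a4 := Δ0 i hi
    have a5 : Δ i ≤ 3 * L * (x l - x i) := by nlinarith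
    refine ⟨?_, a5⟩
    by_contra a6
    nlinarith
  refine ⟨X.filter (fun i => f i = h) ∪ Z, (range (E + 1)).image s, sig,
    fun i => (β i, sd i, k i), ⟨union_subset (filter_subset _ _) hZ,
      card_image_le.trans (by simp), fun i hi => ?_, ne, fun c => ?_, fun i hi l hl e => ?_,
      fun i hi l hl zi zl e => ?_⟩, ?_⟩
  · have := (hb i hi).1
    simp only [sig]
    split_ifs
    · exact mem_image_of_mem _ (mem_range.2 (by omega))
    · exact mem_image_of_mem _ (mem_range.2 (by omega))
  · refine le_trans (Nat.mul_le_mul_right E (Nat.sub_le_sub_right (card_le_card ?_) 1)) (hc c.1)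
    intro i hi
    rw [mem_filter] at hi ⊢
    exact ⟨hi.1, congrArg Prod.fst hi.2⟩
  · simp only [Prod.mk.injEq, sd, decide_eq_decide] at e
    refine ⟨by simp only [sig, e.1, e.2.1], k1 i hi l hl e.2.2, ?_⟩
    have a1 := hb i hi
    have a2 := hb l hl
    by_cases c : f l < h
    · simp only [sig, c, e.2.1.2 c, if_true, a1.2.1, a2.2.1]
    · have c' : ¬ f i < h := fun d => c (e.2.1.1 d)
      simp only [sig, c, c', if_false, a1.2.2.not_gt, a2.2.2.not_gt]
  · rw [mem_union, not_or, mem_filter, not_and] at zi zl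
    have fi := zi.1 hi
    have fl' := zl.1 hl
    have d0 := abs_nonneg (x i - x l)
    have a1 := hb i hi
    have a2 := hb l hl
    rcases lt_trichotomy (β i) (β l) with c | c | c
    · obtain ⟨b1, _, b3⟩ := key i hi l hl c
      have : x l - x i ≤ |x i - x l| := by rw [abs_sub_comm]; exact le_abs_self _
      constructor <;> nlinarith
    · by_cases c1 : f i < h <;> by_cases c2 : f l < h
      · have e1 : sig i = sig l := by simp only [sig, c1, c2, if_true, c]
        have e2 : k i ≠ k l := fun d => e (by simp only [sd, c, c1, c2, d])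
        have e3 : |(|x i - sig i| - |x l - sig l|)| ≤ |x i - x l| := by
          refine (abs_abs_sub_abs_le_abs_sub _ _).trans_eq ?_
          rw [e1]; congr 1; ring
        rw [abs_le] at e3
        refine ⟨?_, by rw [e1, sub_self, abs_zero]; positivity⟩
        rcases e2.lt_or_gt with d | d
        · have := k2 l hl i hi zl.2 d
          have b0 := abs_nonneg (x l - sig l)
          have b1 : 0 ≤ |x l - sig l| - |x i - sig i| := by
            by_contra b; nlinarith [abs_pos.2 (sub_ne_zero.2 (ne l hl))]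
          nlinarith
        · have := k2 i hi l hl zi.2 d
          nlinarith
      · obtain ⟨b1, b2⟩ := key2 i hi l hl c c1 (by omega)
        have : |x i - x l| = x l - x i := by rw [abs_sub_comm]; exact abs_of_pos b1
        simp only [sig, c1, c2, if_true, if_false, this, ← c]
        simp only [Δ] at b2
        refine ⟨abs_le.2 ⟨?_, ?_⟩, abs_le.2 ⟨?_, ?_⟩⟩ <;> nlinarith [a1.2.1, a1.2.2]
      · obtain ⟨b1, b2⟩ := key2 l hl i hi c.symm c2 (by omega)
        have : |x i - x l| = x i - x l := abs_of_pos b1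
        simp only [sig, c1, c2, if_true, if_false, this, c]
        simp only [Δ] at b2
        rw [c] at a1
        refine ⟨abs_le.2 ⟨?_, ?_⟩, abs_le.2 ⟨?_, ?_⟩⟩ <;> nlinarith [a1.2.1, a1.2.2]
      · have e1 : sig i = sig l := by simp only [sig, c1, c2, if_false, c]
        have e2 : k i ≠ k l := fun d => e (by simp only [sd, c, c1, c2, d])
        have e3 : |(|x i - sig i| - |x l - sig l|)| ≤ |x i - x l| := by
          refine (abs_abs_sub_abs_le_abs_sub _ _).trans_eq ?_
          rw [e1]; congr 1; ring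
        rw [abs_le] at e3
        refine ⟨?_, by rw [e1, sub_self, abs_zero]; positivity⟩
        rcases e2.lt_or_gt with d | d
        · have := k2 l hl i hi zl.2 d
          have b0 := abs_nonneg (x l - sig l)
          have b1 : 0 ≤ |x l - sig l| - |x i - sig i| := by
            by_contra b; nlinarith [abs_pos.2 (sub_ne_zero.2 (ne l hl))]
          nlinarith
        · have := k2 i hi l hl zi.2 d
          nlinarith
    · obtain ⟨_, b2, b3⟩ := key l hl i hi c
      have := le_abs_self (x i - x l)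
      rw [abs_sub_comm] at b3
      constructor <;> nlinarith
  · have h1 : ∑ i ∈ X.filter (fun i => f i = h) ∪ Z, w i ≤
        ∑ i ∈ X.filter (fun i => f i = h), w i + ∑ i ∈ Z, w i := by
      rw [← sum_union_inter]
      have : 0 ≤ ∑ i ∈ X.filter (fun i => f i = h) ∩ Z, w i :=
        sum_nonneg fun i hi => hw i (hZ (mem_inter.1 hi).2)
      linarith
    nlinarith

end Pool.Agent.Lib.MP_d308c3_co.LT
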