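import Pool.Agent.Lib.MP_d308c3_co.LT.OneD

/-! Crossing pairs in a good step: same class, or mixed types with a fixed side. -/

namespace Pool.Agent.Lib.MP_d308c3_co.LT

open Finset

variable {I : Type*}

/-- the ratio `n / d` is far from the step `[t', t]` -/
def Alt (H t' t n d : ℝ) : Prop := n * H < t' * d ∨ t * H * d < n

section core
variable {K H t' t da db : ℝ}

theorem noS (h1 : t' * da < db) (d0 : 0 < da) {n d : ℝ} (hd : 0 < d)
    (h : db * d ≤ H * n * da) : ¬ n * H < t' * d := fun c => by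
  have a1 := mul_lt_mul_of_pos_right c d0
  have a2 := mul_lt_mul_of_pos_right h1 hd
  nlinarith

theorem noC (h2 : db < t * da) (d0 : 0 < da) (H0 : 0 < H) {n d : ℝ} (hd : 0 < d)
    (h : n * da ≤ H * db * d) : ¬ t * H * d < n := fun c => by
  have a1 := mul_lt_mul_of_pos_right c d0
  have a2 := mul_lt_mul_of_pos_right h2 (mul_pos H0 hd)
  nlinarith

theorem mix (hK : 1 ≤ K) (hH : H = 9 * K) (h1 : t' * da < db) (h2 : db < t * da) (d0 : 0 < da)
    (e0 : 0 < db) {r r' F ρ ρ' : ℝ} (r0 : 0 < r) (r0' : 0 < r')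
    (ρ0 : 0 < ρ) (m1 : r ≤ r') (m2 : F ≤ r') (m3 : ρ' ≤ ρ) (a1 : r' ≤ K * da) (a2 : da ≤ 3 * r')
    (b1 : ρ ≤ K * db) (b2 : db ≤ 3 * ρ) (g1 : Alt H t' t ρ r) (g2 : 0 < F → Alt H t' t ρ F)
    (g3 : Alt H t' t ρ' r') : ¬ ρ * H < t' * r ∧ ρ' * H < t' * r' ∧ r + F < r' := by
  have H0 : 0 < H := by linarith
  have k1 : db * r' ≤ 3 * K * ρ * da := by
    have := mul_le_mul b2 a1 r0'.le (by linarith)
    linarith
  have k2 : ρ * da ≤ 3 * K * db * r' := by
    have := mul_le_mul b1 a2 d0.le (by positivity)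
    linarith
  have p1 : 0 ≤ K * ρ * da := by positivity
  have p2 : 0 ≤ K * db * r' := by positivity
  have n1 : ∀ d, 0 < d → d ≤ r' → ¬ ρ * H < t' * d := fun d hd c =>
    noS h1 d0 hd (by
      have := mul_le_mul_of_nonneg_left c e0.le
      rw [hH]; linarith)
  have n2 : ∀ d, 0 < d → r' ≤ 3 * d → ¬ t * H * d < ρ := fun d hd c =>
    noC h2 d0 H0 hd (by
      have := mul_le_mul_of_nonneg_left c (by positivity : 0 ≤ K * db)
      rw [hH]; linarith)
  refine ⟨n1 r r0 m1, ?_, ?_⟩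
  · refine g3.resolve_right (noC h2 d0 H0 r0' ?_)
    have := mul_le_mul_of_nonneg_right m3 d0.le
    rw [hH]; linarith
  · have c1 : 3 * r < r' := by
      by_contra c
      exact g1.elim (n1 r r0 m1) (n2 r r0 (not_lt.1 c))
    have c2 : 3 * F < r' := by
      by_contra c
      have F1 : 0 < F := by linarith [not_lt.1 c]
      exact (g2 F1).elim (n1 F F1 m2) (n2 F F1 (not_lt.1 c))
    linarith

theorem both (hK : 1 ≤ K) (hH : H = 9 * K) (h1 : t' * da < db) (h2 : db < t * da) (d0 : 0 < da)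
    (e0 : 0 < db) {r r' F ρ ρ' G : ℝ} (r0 : 0 < r) (r0' : 0 < r')
    (ρ0 : 0 < ρ) (ρ0' : 0 < ρ') (a1 : r ≤ K * da) (a2 : r' ≤ K * da) (a3 : F ≤ K * da)
    (a4 : da ≤ r + r' + F) (b1 : ρ ≤ K * db) (b2 : ρ' ≤ K * db) (b3 : G ≤ K * db)
    (b4 : db ≤ ρ + ρ' + G)
    (g : ∀ n d, n = ρ ∨ (n = G ∧ 0 < G) → d = r ∨ (d = F ∧ 0 < F) → Alt H t' t n d)
    (g' : ∀ n d, n = ρ' ∨ (n = G ∧ 0 < G) → d = r' ∨ (d = F ∧ 0 < F) → Alt H t' t n d) :
    (¬ ρ * H < t' * r ∧ ρ' * H < t' * r' ∧ r + F < r') ∨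
      (¬ ρ' * H < t' * r' ∧ ρ * H < t' * r ∧ r' + F < r) := by
  have H0 : 0 < H := by linarith
  have no : ∀ n d, 0 < d → d ≤ K * da → da ≤ 3 * d → n ≤ K * db → db ≤ 3 * n →
      ¬ Alt H t' t n d := fun n d hd c1 c2 c3 c4 c => by
    have n0 : 0 < n := by linarith
    have k1 := mul_le_mul c4 c1 hd.le (by linarith)
    have k2 := mul_le_mul c3 c2 d0.le (by positivity)
    have p1 : 0 ≤ K * n * da := by positivity
    have p2 : 0 ≤ K * db * d := by positivity
    exact c.elim (noS h1 d0 hd (by rw [hH]; linarith)) (noC h2 d0 H0 hd (by rw [hH]; linarith))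
  have tri : ∀ x y z : ℝ, (y ≤ x ∧ z ≤ x) ∨ (x ≤ y ∧ z ≤ y) ∨ (x ≤ z ∧ y ≤ z) := fun x y z => by
    rcases le_total x y with c | c
    · rcases le_total y z with c' | c'
      · exact .inr (.inr ⟨c.trans c', c'⟩)
      · exact .inr (.inl ⟨c, c'⟩)
    · rcases le_total x z with c' | c'
      · exact .inr (.inr ⟨c', c.trans c'⟩)
      · exact .inl ⟨c, c'⟩
  have ca := tri r r' F
  have cb := tri ρ ρ' G
  rcases ca with ⟨x1, x2⟩ | ⟨x1, x2⟩ | ⟨x1, x2⟩ <;> rcases cb with ⟨y1, y2⟩ | ⟨y1, y2⟩ | ⟨y1, y2⟩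
  · exact absurd (g ρ r (.inl rfl) (.inl rfl)) (no _ _ r0 a1 (by linarith) b1 (by linarith))
  · exact .inr (mix hK hH h1 h2 d0 e0 r0' r0 ρ0' x1 x2 y1 a1 (by linarith) b2 (by linarith)
      (g' _ _ (.inl rfl) (.inl rfl)) (fun c => g' _ _ (.inl rfl) (.inr ⟨rfl, c⟩))
      (g _ _ (.inl rfl) (.inl rfl)))
  · exact absurd (g G r (.inr ⟨rfl, by linarith⟩) (.inl rfl))
      (no _ _ r0 a1 (by linarith) b3 (by linarith))
  · exact .inl (mix hK hH h1 h2 d0 e0 r0 r0' ρ0 x1 x2 y1 a2 (by linarith) b1 (by linarith)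
      (g _ _ (.inl rfl) (.inl rfl)) (fun c => g _ _ (.inl rfl) (.inr ⟨rfl, c⟩))
      (g' _ _ (.inl rfl) (.inl rfl)))
  · exact absurd (g' ρ' r' (.inl rfl) (.inl rfl)) (no _ _ r0' a2 (by linarith) b2 (by linarith))
  · exact absurd (g' G r' (.inr ⟨rfl, by linarith⟩) (.inl rfl))
      (no _ _ r0' a2 (by linarith) b3 (by linarith))
  · exact absurd (g ρ F (.inl rfl) (.inr ⟨rfl, by linarith⟩))
      (no _ _ (by linarith) a3 (by linarith) b1 (by linarith))
  · exact absurd (g' ρ' F (.inl rfl) (.inr ⟨rfl, by linarith⟩))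
      (no _ _ (by linarith) a3 (by linarith) b2 (by linarith))
  · exact absurd (g G F (.inr ⟨rfl, by linarith⟩) (.inr ⟨rfl, by linarith⟩))
      (no _ _ (by linarith) a3 (by linarith) b3 (by linarith))

end core

/-- positive distances between centres -/
noncomputable def Dst (C : Finset ℝ) : Finset ℝ :=
  ((C ×ˢ C).image fun p => |p.1 - p.2|).filter fun d => 0 < d

theorem Dst.mem {C : Finset ℝ} {c c' : ℝ} (h : c ∈ C) (h' : c' ∈ C) (h0 : 0 < |c - c'|) :
    |c - c'| ∈ Dst C :=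
  mem_filter.2 ⟨mem_image.2 ⟨(c, c'), mem_product.2 ⟨h, h'⟩, rfl⟩, h0⟩

theorem Dst.pos {C : Finset ℝ} {d : ℝ} (h : d ∈ Dst C) : 0 < d := (mem_filter.1 h).2

theorem Dst.card (C : Finset ℝ) : (Dst C).card ≤ C.card ^ 2 :=
  (card_filter_le _ _).trans (card_image_le.trans (by rw [card_product, sq]))

/-- all values of a point with radii `r`, `ρ` are far from the step -/
def Good (Ca Cb : Finset ℝ) (H t' t r ρ : ℝ) : Prop :=
  ∀ n ∈ insert ρ (Dst Cb), ∀ d ∈ insert r (Dst Ca), Alt H t' t n d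

theorem Cls.close {X : Finset I} {x : I → ℝ} {E : ℕ} {K : ℝ} {Z : Finset I} {C : Finset ℝ}
    {sig : I → ℝ} {u : I → ℕ × Bool × ℤ} (h : Cls X x E K Z C sig u) {p q : I} (hp : p ∈ X)
    (hq : q ∈ X) (e : u p = u q) : |x p - x q| ≤ 3 * |x p - sig p| := by
  obtain ⟨e1, e2, e3⟩ := h.same p hp q hq e
  obtain ⟨_, e4, _⟩ := h.same q hq p hp e.symm
  have n1 := h.ne p hp
  have n2 := h.ne q hq
  rw [← e1] at e2 e3 e4 n2
  by_cases c : sig p < x p
  · have c' := e3.1 c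
    rw [abs_of_pos (sub_pos.2 c), abs_of_pos (sub_pos.2 c')] at e2 e4
    rw [abs_of_pos (sub_pos.2 c), abs_le]
    constructor <;> linarith
  · have c' : x q < sig p := lt_of_le_of_ne (not_lt.1 fun d => c (e3.2 d)) n2
    have c : x p < sig p := lt_of_le_of_ne (not_lt.1 c) n1
    rw [abs_of_neg (sub_neg.2 c), abs_of_neg (sub_neg.2 c')] at e2 e4
    rw [abs_of_neg (sub_neg.2 c), abs_le]
    constructor <;> linarith

theorem pairs {X : Finset I} {a b : I → ℝ} {E : ℕ} {K H : ℝ} {Za Zb : Finset I}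
    {Ca Cb : Finset ℝ} {σ γ : I → ℝ} {u v : I → ℕ × Bool × ℤ} (ha : Cls X a E K Za Ca σ u)
    (hb : Cls X b E K Zb Cb γ v) (hK : 1 ≤ K) (hH : H = 9 * K) {p q : I} (hp : p ∈ X)
    (hq : q ∈ X) (pa : p ∉ Za) (pb : p ∉ Zb) (qa : q ∉ Za) (qb : q ∉ Zb) {t' t : ℝ}
    (t0 : 0 < t') (tt : t' ≤ t) (h1 : t' * (a p - a q) < b q - b p)
    (h2 : b q - b p < t * (a p - a q))
    (gp : Good Ca Cb H t' t |a p - σ p| |b p - γ p|)
    (gq : Good Ca Cb H t' t |a q - σ q| |b q - γ q|) :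
    (|b p - γ p| * H < t' * |a p - σ p| → |b q - γ q| * H < t' * |a q - σ q| → u p = u q) ∧
    (¬ |b p - γ p| * H < t' * |a p - σ p| → ¬ |b q - γ q| * H < t' * |a q - σ q| → v p = v q) ∧
    (|b p - γ p| * H < t' * |a p - σ p| → ¬ |b q - γ q| * H < t' * |a q - σ q| → σ p < a p) ∧
    (¬ |b p - γ p| * H < t' * |a p - σ p| → |b q - γ q| * H < t' * |a q - σ q| → a q < σ q) := by
  have H0 : 0 < H := by linarith
  have d0 : 0 < a p - a q := by
    by_contra c
    nlinarith [not_lt.1 c]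
  have e0 : 0 < b q - b p := (mul_pos t0 d0).trans h1
  have ea : |a p - a q| = a p - a q := abs_of_pos d0
  have ea' : |a q - a p| = a p - a q := by rw [abs_sub_comm, ea]
  have eb : |b q - b p| = b q - b p := abs_of_pos e0
  have eb' : |b p - b q| = b q - b p := by rw [abs_sub_comm, eb]
  have r0 := abs_pos.2 (sub_ne_zero.2 (ha.ne p hp))
  have r0' := abs_pos.2 (sub_ne_zero.2 (ha.ne q hq))
  have ρ0 := abs_pos.2 (sub_ne_zero.2 (hb.ne p hp))
  have ρ0' := abs_pos.2 (sub_ne_zero.2 (hb.ne q hq))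
  have gp0 := gp _ (mem_insert_self _ _) _ (mem_insert_self _ _)
  have gq0 := gq _ (mem_insert_self _ _) _ (mem_insert_self _ _)
  have sS : ∀ {r ρ : ℝ}, 0 < r → a p - a q ≤ 3 * r → ρ ≤ K * (b q - b p) → Alt H t' t ρ r →
      ρ * H < t' * r := fun {r ρ} hr c1 c2 g => by
    refine g.resolve_right (noC h2 d0 H0 hr ?_)
    have := mul_le_mul c2 c1 d0.le (by positivity)
    have : 0 ≤ K * (b q - b p) * r := by positivity
    rw [hH]; linarith
  have sC : ∀ {r ρ : ℝ}, 0 < r → r ≤ K * (a p - a q) → b q - b p ≤ 3 * ρ →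
      ¬ ρ * H < t' * r := fun {r ρ} hr c1 c2 => by
    refine noS h1 d0 hr ?_
    have := mul_le_mul c2 c1 hr.le (by linarith)
    have ρ1 : 0 < ρ := by linarith
    have : 0 ≤ K * ρ * (a p - a q) := by positivity
    rw [hH]; linarith
  have sE : ∀ {r ρ r' ρ' : ℝ}, 0 < r → 0 < r' → 0 < ρ → r ≤ 4 * r' → ρ' ≤ 4 * ρ →
      ρ * H < t' * r → Alt H t' t ρ' r' → ρ' * H < t' * r' :=
    fun {r ρ r' ρ'} hr hr' hρ c1 c2 c g => by
    refine g.resolve_right fun d => ?_
    have x1 : t' * r ≤ t * (4 * r') := mul_le_mul tt c1 hr.le (by linarith)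
    have x2 : ρ * H * H < t * (4 * r') * H := mul_lt_mul_of_pos_right (c.trans_le x1) H0
    have x3 : 16 ≤ H * H := by nlinarith
    nlinarith
  by_cases cu : u p = u q <;> by_cases cv : v p = v q
  · have x1 := (ha.same p hp q hq cu).2.1
    have x2 := (ha.same q hq p hp cu.symm).2.1
    have x3 := (hb.same p hp q hq cv).2.1
    have x4 := (hb.same q hq p hp cv.symm).2.1
    exact ⟨fun _ _ => cu, fun _ _ => cv, fun c d => absurd (sE r0 r0' ρ0 x1 x4 c gq0) d,
      fun c d => absurd (sE r0' r0 ρ0' x2 x3 d gp0) c⟩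
  · have x1 := ha.close hp hq cu
    have x2 := ha.close hq hp cu.symm
    have x3 := (hb.far p hp q hq pb qb cv).1
    have x4 := (hb.far q hq p hp qb pb (Ne.symm cv)).1
    rw [ea] at x1; rw [ea'] at x2; rw [eb'] at x3; rw [eb] at x4
    have s1 := sS r0 x1 x3 gp0
    have s2 := sS r0' x2 x4 gq0
    exact ⟨fun _ _ => cu, fun c _ => absurd s1 c, fun _ d => absurd s2 d, fun c _ => absurd s1 c⟩
  · have x1 := hb.close hp hq cv
    have x2 := hb.close hq hp cv.symm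
    have x3 := (ha.far p hp q hq pa qa cu).1
    have x4 := (ha.far q hq p hp qa pa (Ne.symm cu)).1
    rw [eb'] at x1; rw [eb] at x2; rw [ea] at x3; rw [ea'] at x4
    have s1 := sC r0 x3 x1
    have s2 := sC r0' x4 x2
    exact ⟨fun c _ => absurd c s1, fun _ _ => cv, fun c _ => absurd c s1, fun _ d => absurd d s2⟩
  · obtain ⟨x1, x2⟩ := ha.far p hp q hq pa qa cu
    have x3 := (ha.far q hq p hp qa pa (Ne.symm cu)).1
    obtain ⟨y1, y2⟩ := hb.far p hp q hq pb qb cv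
    have y3 := (hb.far q hq p hp qb pb (Ne.symm cv)).1
    rw [ea] at x1 x2; rw [ea'] at x3; rw [eb'] at y1 y2; rw [eb] at y3
    have z1 := le_abs_self (a p - σ p)
    have z2 := neg_abs_le (a q - σ q)
    have z3 := le_abs_self (σ p - σ q)
    have z4 := neg_abs_le (b p - γ p)
    have z5 := le_abs_self (b q - γ q)
    have z6 := neg_abs_le (γ p - γ q)
    have mF : ∀ {r d : ℝ}, d = r ∨ (d = |σ p - σ q| ∧ 0 < |σ p - σ q|) → d ∈ insert r (Dst Ca) :=
      fun {r d} c => c.elim (fun c => c ▸ mem_insert_self _ _) fun c =>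
        mem_insert_of_mem (c.1 ▸ Dst.mem (ha.mem p hp) (ha.mem q hq) c.2)
    have mG : ∀ {r d : ℝ}, d = r ∨ (d = |γ p - γ q| ∧ 0 < |γ p - γ q|) → d ∈ insert r (Dst Cb) :=
      fun {r d} c => c.elim (fun c => c ▸ mem_insert_self _ _) fun c =>
        mem_insert_of_mem (c.1 ▸ Dst.mem (hb.mem p hp) (hb.mem q hq) c.2)
    rcases both hK hH h1 h2 d0 e0 r0 r0' ρ0 ρ0' x1 x3 x2 (by linarith)
      y1 y3 y2 (by linarith) (fun n d c c' => gp n (mG c) d (mF c'))
      (fun n d c c' => gq n (mG c) d (mF c')) with ⟨s1, s2, s3⟩ | ⟨s1, s2, s3⟩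
    · refine ⟨fun c _ => absurd c s1, fun _ d => absurd s2 d, fun c _ => absurd c s1,
        fun _ _ => ?_⟩
      by_contra c
      rw [abs_of_nonneg (sub_nonneg.2 (not_lt.1 c))] at s3
      linarith
    · refine ⟨fun _ d => absurd d s1, fun c _ => absurd s2 c, fun _ _ => ?_,
        fun c _ => absurd s2 c⟩
      by_contra c
      rw [abs_of_nonpos (sub_nonpos.2 (not_lt.1 c))] at s3
      linarith

open Classical in
/-- a ratio is close to few steps of a lacunary sequence of times -/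
theorem card_not_alt {t : ℕ → ℝ} {S : ℕ} (t0 : 0 < t S) (ht : ∀ j < S, 2 * t (j + 1) ≤ t j)
    {H : ℕ} (hH : 1 ≤ H) {n d : ℝ} (d0 : 0 < d) :
    ((range S).filter fun j => ¬ Alt H (t (j + 1)) (t j) n d).card ≤ Nat.log 2 (H * H) + 2 := by
  have pos : ∀ k j, j + k = S → 0 < t j := by
    intro k
    induction k with
    | zero => intro j h; rw [show j = S by omega]; exact t0
    | succ k ih => intro j h; linarith [ht j (by omega), ih (j + 1) (by omega)]
  have dec : ∀ k j, j + k ≤ S → 2 ^ k * t (j + k) ≤ t j := by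
    intro k
    induction k with
    | zero => intro j _; simp
    | succ k ih =>
      intro j h
      have a1 := ih j (by omega)
      have a2 := ht (j + k) (by omega)
      have a3 : (0 : ℝ) ≤ 2 ^ k := by positivity
      rw [pow_succ, ← add_assoc]
      nlinarith
  set B := (range S).filter fun j => ¬ Alt H (t (j + 1)) (t j) n d with hB
  rcases B.eq_empty_or_nonempty with h | h
  · simp [h]
  have hsub : B ⊆ Ico (B.min' h) (B.min' h + (Nat.log 2 (H * H) + 2)) := by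
    intro j hj
    have m1 := B.min'_le j hj
    have m2 := mem_filter.1 (B.min'_mem h)
    have m3 := mem_filter.1 hj
    set i := B.min' h
    refine mem_Ico.2 ⟨m1, ?_⟩
    by_contra c
    obtain ⟨k, rfl⟩ : ∃ k, j = i + 1 + k := ⟨j - (i + 1), by omega⟩
    have hS := mem_range.1 m3.1
    have a1 := dec k (i + 1) hS.le
    have a2 : t (i + 1) * d ≤ n * H := not_lt.1 fun e => m2.2 (.inl e)
    have a3 : n ≤ t (i + 1 + k) * H * d := not_lt.1 fun e => m3.2 (.inr e)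
    have a4 := pos (S - (i + 1 + k)) (i + 1 + k) (by omega)
    have H1 : (1 : ℝ) ≤ H := by exact_mod_cast hH
    have a5 : (2 : ℝ) ^ k * (t (i + 1 + k) * d) ≤ H * H * (t (i + 1 + k) * d) := by
      have b1 := mul_le_mul_of_nonneg_right a1 d0.le
      have b2 := mul_le_mul_of_nonneg_right a3 (by linarith : (0 : ℝ) ≤ H)
      nlinarith
    have a6 : (2 : ℝ) ^ k ≤ H * H := le_of_mul_le_mul_right a5 (mul_pos a4 d0)
    have a7 : 2 ^ k ≤ H * H := by exact_mod_cast a6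
    have a8 := (Nat.le_log_iff_pow_le (by norm_num) (by positivity)).2 a7
    omega
  simpa using card_le_card hsub

open Classical in
theorem card_not_good {t : ℕ → ℝ} {S : ℕ} (t0 : 0 < t S) (ht : ∀ j < S, 2 * t (j + 1) ≤ t j)
    {H : ℕ} (hH : 1 ≤ H) {Ca Cb : Finset ℝ} {m : ℕ} (ca : Ca.card ≤ m) (cb : Cb.card ≤ m)
    {r ρ : ℝ} (r0 : 0 < r) :
    ((range S).filter fun j => ¬ Good Ca Cb H (t (j + 1)) (t j) r ρ).card ≤
      (1 + m ^ 2) ^ 2 * (Nat.log 2 (H * H) + 2) := by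
  have hsub : ((range S).filter fun j => ¬ Good Ca Cb H (t (j + 1)) (t j) r ρ) ⊆
      ((insert ρ (Dst Cb)) ×ˢ (insert r (Dst Ca))).biUnion fun x =>
        (range S).filter fun j => ¬ Alt H (t (j + 1)) (t j) x.1 x.2 := by
    intro j hj
    obtain ⟨h1, h2⟩ := mem_filter.1 hj
    simp only [Good, not_forall] at h2
    obtain ⟨n, hn, d, hd, h3⟩ := h2
    exact mem_biUnion.2 ⟨(n, d), mem_product.2 ⟨hn, hd⟩, mem_filter.2 ⟨h1, h3⟩⟩
  refine (card_le_card hsub).trans ((card_biUnion_le_card_mul _ _ (Nat.log 2 (H * H) + 2)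
    fun x hx => ?_).trans ?_)
  · obtain ⟨_, h2⟩ := mem_product.1 hx
    have d0 : 0 < x.2 := (mem_insert.1 h2).elim (fun c => c ▸ r0) Dst.pos
    convert card_not_alt t0 ht hH d0
  · refine Nat.mul_le_mul_right _ ?_
    rw [card_product, sq]
    have h1 := (card_insert_le ρ (Dst Cb)).trans
      (Nat.add_le_add_right ((Dst.card Cb).trans (Nat.pow_le_pow_left cb 2)) 1)
    have h2 := (card_insert_le r (Dst Ca)).trans
      (Nat.add_le_add_right ((Dst.card Ca).trans (Nat.pow_le_pow_left ca 2)) 1)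
    rw [add_comm] at h1 h2
    exact Nat.mul_le_mul h1 h2

end Pool.Agent.Lib.MP_d308c3_co.LT
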