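import Mathlib

/-! Counting inside one step, and almost convex sets of steps. -/

namespace Pool.Agent.Lib.MP_d308c3_co.LT

open Finset

variable {I W : Type*}

/-- some point of `A` enters and some point of `A` leaves -/
def Sw (A : Finset I) (e : I → ℝ) : Prop := (∃ p ∈ A, e p = 1) ∧ ∃ p ∈ A, e p = -1

open Classical in
/-- indicator of `Sw` -/
noncomputable def sw (A : Finset I) (e : I → ℝ) : ℝ := if Sw A e then 1 else 0

theorem sw_nonneg (A : Finset I) (e : I → ℝ) : 0 ≤ sw A e := by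
  unfold sw; split_ifs <;> norm_num

theorem sw_le_one (A : Finset I) (e : I → ℝ) : sw A e ≤ 1 := by
  unfold sw; split_ifs <;> norm_num

theorem Sw.mono {A B : Finset I} {e : I → ℝ} (h : Sw A e) (hs : A ⊆ B) : Sw B e :=
  ⟨h.1.imp fun _ c => ⟨hs c.1, c.2⟩, h.2.imp fun _ c => ⟨hs c.1, c.2⟩⟩

theorem sw_mono {A B : Finset I} (e : I → ℝ) (hs : A ⊆ B) : sw A e ≤ sw B e := by
  unfold sw
  split_ifs with h1 h2
  · exact le_rfl
  · exact absurd (h1.mono hs) h2
  · norm_num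
  · exact le_rfl

section
variable {A : Finset I} {e : I → ℝ}

theorem abs_le_one_of (he : ∀ p, e p = -1 ∨ e p = 0 ∨ e p = 1) (p : I) : |e p| ≤ 1 := by
  rcases he p with h | h | h <;> rw [h] <;> norm_num

theorem sum_abs_of_not (he : ∀ p, e p = -1 ∨ e p = 0 ∨ e p = 1) (h : ¬ Sw A e) :
    ∑ p ∈ A, |e p| = |∑ p ∈ A, e p| := by
  rcases not_and_or.1 h with h | h
  · have h1 : ∀ p ∈ A, e p ≤ 0 := fun p hp => by
      rcases he p with c | c | c
      · linarith
      · linarith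
      · exact absurd ⟨p, hp, c⟩ h
    rw [abs_of_nonpos (sum_nonpos h1), ← sum_neg_distrib]
    exact sum_congr rfl fun p hp => abs_of_nonpos (h1 p hp)
  · have h1 : ∀ p ∈ A, 0 ≤ e p := fun p hp => by
      rcases he p with c | c | c
      · exact absurd ⟨p, hp, c⟩ h
      · linarith
      · linarith
    rw [abs_of_nonneg (sum_nonneg h1)]
    exact sum_congr rfl fun p hp => abs_of_nonneg (h1 p hp)

theorem sum_abs_le_card (he : ∀ p, e p = -1 ∨ e p = 0 ∨ e p = 1) :
    ∑ p ∈ A, |e p| ≤ A.card := by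
  simpa using sum_le_card_nsmul A (fun p => |e p|) 1 fun p _ => abs_le_one_of he p

theorem step_zero (he : ∀ p, e p = -1 ∨ e p = 0 ∨ e p = 1) {X : Finset I} (hs : A ⊆ X) :
    ∑ p ∈ A, |e p| ≤ |∑ p ∈ A, e p| + 2 * (sw A e * (X.card - 1 : ℕ)) := by
  by_cases h : Sw A e
  · obtain ⟨⟨p, hp, h1⟩, q, hq, h2⟩ := id h
    have h3 : 1 < X.card := one_lt_card.2 ⟨p, hs hp, q, hs hq, fun c => by
      rw [c, h2] at h1; norm_num at h1⟩
    have h4 : A.card ≤ 2 * (X.card - 1) := by have := card_le_card hs; omega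
    have h5 : (A.card : ℝ) ≤ 2 * ((X.card - 1 : ℕ) : ℝ) := by exact_mod_cast h4
    have h6 := sum_abs_le_card (A := A) he
    have h7 := abs_nonneg (∑ p ∈ A, e p)
    simp only [sw, h, if_true]
    linarith
  · simp only [sw, h, if_false, sum_abs_of_not he h]
    simp

theorem one_class (he : ∀ p, e p = -1 ∨ e p = 0 ∨ e p = 1) {u : I → W}
    (hu : ∀ p ∈ A, ∀ q ∈ A, e p = -1 → e q = 1 → u p = u q) (h : Sw A e) :
    ∃ q ∈ A, ∀ p ∈ A, e p = 0 ∨ u p = u q := by
  obtain ⟨⟨q, hq, h1⟩, r, hr, h2⟩ := h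
  refine ⟨q, hq, fun p hp => ?_⟩
  rcases he p with c | c | c
  · exact .inr (hu p hp q hq c h1)
  · exact .inl c
  · exact .inr ((hu r hr p hp h2 c).symm.trans (hu r hr q hq h2 h1))

theorem fib_abs [DecidableEq W] (he : ∀ p, e p = -1 ∨ e p = 0 ∨ e p = 1) {u : I → W}
    (hu : ∀ p ∈ A, ∀ q ∈ A, e p = -1 → e q = 1 → u p = u q) {Wn : Finset W}
    (hW : ∀ p ∈ A, u p ∈ Wn) :
    ∑ w ∈ Wn, |∑ p ∈ A.filter fun p => u p = w, e p| ≤ |∑ p ∈ A, e p| := by
  by_cases h : Sw A e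
  · obtain ⟨q, hq, h1⟩ := one_class he hu h
    rw [sum_eq_single (u q)]
    · refine le_of_eq (congrArg _ ?_)
      refine sum_filter_of_ne fun p hp c => (h1 p hp).resolve_left c
    · intro w _ hw
      rw [sum_eq_zero, abs_zero]
      intro p hp
      obtain ⟨h2, h3⟩ := mem_filter.1 hp
      exact (h1 p h2).resolve_right fun c => hw (h3.symm.trans c)
    · intro c; exact absurd (hW q hq) c
  · rw [← sum_abs_of_not he h, ← sum_fiberwise_of_maps_to hW]
    exact sum_le_sum fun w _ => abs_sum_le_sum_abs _ _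

theorem fib_sw [DecidableEq W] (he : ∀ p, e p = -1 ∨ e p = 0 ∨ e p = 1) {u : I → W}
    (hu : ∀ p ∈ A, ∀ q ∈ A, e p = -1 → e q = 1 → u p = u q) (Wn : Finset W) :
    ∑ w ∈ Wn, sw (A.filter fun p => u p = w) e ≤ sw A e := by
  by_cases h : Sw A e
  · obtain ⟨q, hq, h1⟩ := one_class he hu h
    have h2 : ∀ w, w ≠ u q → sw (A.filter fun p => u p = w) e = 0 := fun w hw => by
      refine if_neg fun c => ?_
      obtain ⟨p, hp, h3⟩ := c.1
      obtain ⟨h4, h5⟩ := mem_filter.1 hp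
      rcases h1 p h4 with d | d
      · rw [d] at h3; norm_num at h3
      · exact hw (h5.symm.trans d)
    by_cases c : u q ∈ Wn
    · rw [sum_eq_single_of_mem _ c fun w _ hw => h2 w hw]
      exact sw_mono e (filter_subset _ _)
    · rw [sum_eq_zero fun w hw => h2 w fun d => c (d ▸ hw)]
      exact sw_nonneg _ _
  · have h2 : ∀ w ∈ Wn, sw (A.filter fun p => u p = w) e = 0 := fun w _ =>
      if_neg fun c => h (Sw.mono c (filter_subset _ _))
    rw [sum_eq_zero h2]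
    exact sw_nonneg _ _

theorem exists_neg (he : ∀ p, e p = -1 ∨ e p = 0 ∨ e p = 1) (h : ∑ p ∈ A, e p < 0) :
    ∃ p ∈ A, e p = -1 := by
  by_contra c
  refine absurd h (not_lt.2 (sum_nonneg fun p hp => ?_))
  rcases he p with d | d | d
  · exact absurd ⟨p, hp, d⟩ c
  · linarith
  · linarith

theorem exists_pos (he : ∀ p, e p = -1 ∨ e p = 0 ∨ e p = 1) (h : 0 < ∑ p ∈ A, e p) :
    ∃ p ∈ A, e p = 1 := by
  by_contra c
  refine absurd h (not_lt.2 (sum_nonpos fun p hp => ?_))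
  rcases he p with d | d | d
  · linarith
  · linarith
  · exact absurd ⟨p, hp, d⟩ c

/-- the potential inequality for the drivers of the two types -/
theorem psi (he : ∀ p, e p = -1 ∨ e p = 0 ∨ e p = 1) {B : Finset I} {sd : I → ℝ}
    (hsd : ∀ p, sd p = 1 ∨ sd p = -1)
    (hu : ∀ p ∈ A, ∀ q ∈ A, e p = -1 → e q = 1 → sd p = sd q)
    (h3 : ∀ p ∈ A, ∀ q ∈ B, e p = -1 → e q = 1 → sd p = 1)
    (h4 : ∀ p ∈ B, ∀ q ∈ A, e p = -1 → e q = 1 → sd q = -1) :
    |∑ p ∈ A, e p| + |∑ p ∈ B, e p| ≤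
      3 * |∑ p ∈ A, e p + ∑ p ∈ B, e p| - 2 * ∑ p ∈ A, sd p * e p := by
  set x := ∑ p ∈ A, e p with hx
  set y := ∑ p ∈ B, e p with hy
  have cst : ∀ c : ℝ, (∀ p ∈ A, e p = 0 ∨ sd p = c) → ∑ p ∈ A, sd p * e p = c * x := by
    intro c h
    rw [hx, mul_sum]
    refine sum_congr rfl fun p hp => ?_
    rcases h p hp with d | d <;> simp [d]
  have k0 : ∑ p ∈ A, sd p * e p ≤ |x| := by
    by_cases h : Sw A e
    · obtain ⟨q, _, h1⟩ := one_class he hu h
      rw [cst _ h1]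
      rcases hsd q with d | d <;> rw [d]
      · simpa using le_abs_self x
      · simpa using neg_le_abs x
    · rw [hx, ← sum_abs_of_not he h]
      refine sum_le_sum fun p _ => ?_
      rcases hsd p with d | d <;> rw [d]
      · simpa using le_abs_self (e p)
      · simpa using neg_le_abs (e p)
  have a1 := le_abs_self (x + y)
  have a2 := neg_le_abs (x + y)
  by_cases c1 : x < 0 ∧ 0 < y
  · obtain ⟨p, hp, ep⟩ := exists_neg he c1.1
    obtain ⟨q, hq, eq⟩ := exists_pos he c1.2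
    rw [cst 1 fun r hr => ?_, abs_of_neg c1.1, abs_of_pos c1.2]
    · linarith
    · rcases he r with d | d | d
      · exact .inr (h3 r hr q hq d eq)
      · exact .inl d
      · exact .inr ((hu p hp r hr ep d).symm.trans (h3 p hp q hq ep eq))
  by_cases c2 : y < 0 ∧ 0 < x
  · obtain ⟨p, hp, ep⟩ := exists_neg he c2.1
    obtain ⟨q, hq, eq⟩ := exists_pos he c2.2
    rw [cst (-1) fun r hr => ?_, abs_of_neg c2.1, abs_of_pos c2.2]
    · linarith
    · rcases he r with d | d | d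
      · exact .inr ((hu r hr q hq d eq).trans (h4 p hp q hq ep eq))
      · exact .inl d
      · exact .inr (h4 p hp r hr ep d)
  have k1 : |x| + |y| ≤ |x + y| := by
    rcases le_total 0 x with d | d <;> rcases le_total 0 y with d' | d'
    · rw [abs_of_nonneg d, abs_of_nonneg d']; linarith
    · rw [abs_of_nonneg d, abs_of_nonpos d']
      rcases d.eq_or_lt with f | f
      · linarith
      · have : 0 ≤ y := not_lt.1 fun g => c2 ⟨g, f⟩
        linarith
    · rw [abs_of_nonpos d, abs_of_nonneg d']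
      rcases d'.eq_or_lt with f | f
      · linarith
      · have : 0 ≤ x := not_lt.1 fun g => c1 ⟨g, f⟩
        linarith
    · rw [abs_of_nonpos d, abs_of_nonpos d']; linarith
  have := abs_nonneg y
  have := abs_nonneg x
  linarith

end

/-- an interval of steps below `S` with at most `β` steps removed -/
def Conv (S β : ℕ) (T : Finset ℕ) : Prop :=
  ∃ J : Finset ℕ, J ⊆ range S ∧ (∀ i ∈ J, ∀ k ∈ J, ∀ j, i ≤ j → j ≤ k → j ∈ J) ∧ T ⊆ J ∧
    (J \ T).card ≤ β

theorem Conv.range (S : ℕ) : Conv S 0 (range S) :=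
  ⟨_, subset_rfl, fun _ _ k hk j _ h => mem_range.2 (h.trans_lt (mem_range.1 hk)), subset_rfl,
    by simp⟩

theorem Conv.sub {S β : ℕ} {T : Finset ℕ} (h : Conv S β T) : T ⊆ Finset.range S := by
  obtain ⟨J, h1, _, h2, _⟩ := h
  exact h2.trans h1

theorem Conv.cut {S β b : ℕ} {T : Finset ℕ} (h : Conv S β T) (G Q : ℕ → Prop) [DecidablePred G]
    [DecidablePred Q] (hG : ((Finset.range S).filter fun j => ¬ G j).card ≤ b)
    (hQ : ∀ i j k, k < S → i ≤ j → j ≤ k → Q i → Q k → Q j) :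
    Conv S (β + b) (T.filter fun j => G j ∧ Q j) := by
  obtain ⟨J, h1, h2, h3, h4⟩ := h
  refine ⟨J.filter Q, (filter_subset _ _).trans h1, fun i hi k hk j c c' => ?_, fun j hj => ?_, ?_⟩
  · rw [mem_filter] at hi hk ⊢
    exact ⟨h2 i hi.1 k hk.1 j c c', hQ i j k (mem_range.1 (h1 hk.1)) c c' hi.2 hk.2⟩
  · rw [mem_filter] at hj ⊢
    exact ⟨h3 hj.1, hj.2.2⟩
  · refine le_trans (card_le_card ?_) ((card_union_le _ _).trans (Nat.add_le_add h4 hG))
    intro j hj
    simp only [mem_sdiff, mem_filter, mem_union] at hj ⊢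
    by_cases c : j ∈ T
    · exact .inr ⟨h1 hj.1.1, fun d => hj.2 ⟨c, d, hj.1.2⟩⟩
    · exact .inl ⟨hj.1.1, c⟩

theorem Conv.tel {S β : ℕ} {T : Finset ℕ} (h : Conv S β T) {g : ℕ → ℝ}
    (hg : ∀ j, g j = 0 ∨ g j = 1) : |∑ j ∈ T, (g (j + 1) - g j)| ≤ 1 + β := by
  obtain ⟨J, _, h2, h3, h4⟩ := h
  have d1 : ∀ i j, |g i - g j| ≤ 1 := fun i j => by
    rcases hg i with c | c <;> rcases hg j with d | d <;> rw [c, d] <;> norm_num
  have a1 : |∑ j ∈ J, (g (j + 1) - g j)| ≤ 1 := by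
    rcases J.eq_empty_or_nonempty with c | c
    · simp [c]
    · have : J = Ico (J.min' c) (J.max' c + 1) := by
        ext j
        rw [mem_Ico]
        exact ⟨fun hj => ⟨J.min'_le j hj, Nat.lt_succ_of_le (J.le_max' j hj)⟩, fun hj =>
          h2 _ (J.min'_mem c) _ (J.max'_mem c) j hj.1 (Nat.le_of_lt_succ hj.2)⟩
      rw [this, sum_Ico_sub _ (Nat.le_succ_of_le (J.min'_le _ (J.max'_mem c)))]
      exact d1 _ _
  have a2 : |∑ j ∈ J \ T, (g (j + 1) - g j)| ≤ β := by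
    refine (abs_sum_le_sum_abs _ _).trans ?_
    have := sum_le_card_nsmul (J \ T) (fun j => |g (j + 1) - g j|) 1 fun j _ => d1 _ _
    have h5 : ((J \ T).card : ℝ) ≤ β := by exact_mod_cast h4
    simp only [nsmul_eq_mul, mul_one] at this
    linarith
  have a3 := sum_sdiff (f := fun j => g (j + 1) - g j) h3
  rw [abs_le] at a1 a2 ⊢
  constructor <;> linarith [a1.1, a1.2, a2.1, a2.2]

end Pool.Agent.Lib.MP_d308c3_co.LT
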