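import Pool.Agent.Lib.MP_d308c3_co.LT.Pairs
import Pool.Agent.Lib.MP_d308c3_co.LT.Step

/-! The recursion for lacunary times. -/

namespace Pool.Agent.Lib.MP_d308c3_co.LT

open Finset

variable {I : Type*}

/-- indicator of being above the state `j` -/
noncomputable def ind (a b : I → ℝ) (t m : ℕ → ℝ) (p : I) (j : ℕ) : ℝ :=
  if m j < b p + t j * a p then 1 else 0

/-- change of the indicator in step `j` -/
noncomputable def ee (a b : I → ℝ) (t m : ℕ → ℝ) (j : ℕ) (p : I) : ℝ :=
  ind a b t m p (j + 1) - ind a b t m p j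

/-- the points whose step `j` is counted -/
def At (X : Finset I) (T : I → Finset ℕ) (j : ℕ) : Finset I := X.filter fun p => j ∈ T p

/-- number of counted changes -/
def VV (S : ℕ) (e : ℕ → I → ℝ) (X : Finset I) (T : I → Finset ℕ) : ℝ :=
  ∑ j ∈ range S, ∑ p ∈ At X T j, |e j p|

/-- drivers -/
def DD (S : ℕ) (e : ℕ → I → ℝ) (X : Finset I) (T : I → Finset ℕ) : ℝ :=
  ∑ j ∈ range S, |∑ p ∈ At X T j, e j p|

/-- number of steps with a swap -/
noncomputable def SS (S : ℕ) (e : ℕ → I → ℝ) (X : Finset I) (T : I → Finset ℕ) : ℝ :=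
  ∑ j ∈ range S, sw (At X T j) (e j)

variable {a b : I → ℝ} {t m : ℕ → ℝ}

theorem ind_cases (p : I) (j : ℕ) : ind a b t m p j = 0 ∨ ind a b t m p j = 1 := by
  unfold ind; split_ifs <;> simp

theorem ee_cases (j : ℕ) (p : I) :
    ee a b t m j p = -1 ∨ ee a b t m j p = 0 ∨ ee a b t m j p = 1 := by
  unfold ee ind; split_ifs <;> norm_num

theorem ee_cross {j : ℕ} {p q : I} (hp : ee a b t m j p = -1) (hq : ee a b t m j q = 1) :
    t (j + 1) * (a p - a q) < b q - b p ∧ b q - b p < t j * (a p - a q) := by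
  have h1 : m j < b p + t j * a p ∧ ¬ m (j + 1) < b p + t (j + 1) * a p := by
    unfold ee ind at hp
    split_ifs at hp with c1 c2 c2
    · norm_num at hp
    · norm_num at hp
    · exact ⟨c2, c1⟩
    · norm_num at hp
  have h2 : ¬ m j < b q + t j * a q ∧ m (j + 1) < b q + t (j + 1) * a q := by
    unfold ee ind at hq
    split_ifs at hq with c1 c2 c2
    · norm_num at hq
    · exact ⟨c2, c1⟩
    · norm_num at hq
    · norm_num at hq
  constructor <;> linarith [h1.1, not_lt.1 h1.2, not_lt.1 h2.1, h2.2]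

theorem At_filter {W : Type*} [DecidableEq W] (X : Finset I) (T : I → Finset ℕ) (u : I → W)
    (w : W) (j : ℕ) : At (X.filter fun p => u p = w) T j = (At X T j).filter fun p => u p = w := by
  unfold At; rw [filter_comm]

theorem SS_nonneg (S : ℕ) (e : ℕ → I → ℝ) (X : Finset I) (T : I → Finset ℕ) : 0 ≤ SS S e X T :=
  sum_nonneg fun _ _ => sw_nonneg _ _

/-- summing the inductive bound over the classes of one type -/
theorem side_bound {W : Type*} [DecidableEq W] {S : ℕ} {e : ℕ → I → ℝ}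
    (he : ∀ j p, e j p = -1 ∨ e j p = 0 ∨ e j p = 1) {X' : Finset I} {T' : I → Finset ℕ}
    {u : I → W} {c1 c2 c3 N s : ℝ} (h1 : 0 ≤ c1) (h3 : 0 ≤ c3) (hN : 0 ≤ N)
    (hu : ∀ j < S, ∀ p ∈ At X' T' j, ∀ q ∈ At X' T' j, e j p = -1 → e j q = 1 → u p = u q)
    (hs : SS S e X' T' ≤ s) (sm : ∀ w, (((X'.filter fun p => u p = w).card - 1 : ℕ) : ℝ) ≤ N)
    (ih : ∀ w, VV S e (X'.filter fun p => u p = w) T' ≤
      c1 * DD S e (X'.filter fun p => u p = w) T' + c2 * (X'.filter fun p => u p = w).card +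
        c3 * (SS S e (X'.filter fun p => u p = w) T' *
          ((X'.filter fun p => u p = w).card - 1 : ℕ))) :
    VV S e X' T' ≤ c1 * DD S e X' T' + c2 * X'.card + c3 * (s * N) := by
  have hW : ∀ j, ∀ p ∈ At X' T' j, u p ∈ X'.image u := fun j p hp =>
    mem_image_of_mem _ (mem_filter.1 hp).1
  have e1 : VV S e X' T' = ∑ w ∈ X'.image u, VV S e (X'.filter fun p => u p = w) T' := by
    simp only [VV, At_filter]
    rw [sum_comm]
    exact sum_congr rfl fun j _ => (sum_fiberwise_of_maps_to (hW j) _).symm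
  have e2 : ∑ w ∈ X'.image u, DD S e (X'.filter fun p => u p = w) T' ≤ DD S e X' T' := by
    simp only [DD, At_filter]
    rw [sum_comm]
    exact sum_le_sum fun j hj => fib_abs (he j) (hu j (mem_range.1 hj)) (hW j)
  have e3 : ∑ w ∈ X'.image u, SS S e (X'.filter fun p => u p = w) T' ≤ s := by
    refine le_trans ?_ hs
    simp only [SS, At_filter]
    rw [sum_comm]
    exact sum_le_sum fun j hj => fib_sw (he j) (hu j (mem_range.1 hj)) _
  have e4 : ∑ w ∈ X'.image u, ((X'.filter fun p => u p = w).card : ℝ) = X'.card := by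
    exact_mod_cast (card_eq_sum_card_image u X').symm
  rw [e1]
  refine (sum_le_sum fun w _ => (ih w).trans (add_le_add le_rfl (mul_le_mul_of_nonneg_left
    (mul_le_mul_of_nonneg_left (sm w) (SS_nonneg _ _ _ _)) h3))).trans ?_
  rw [sum_add_distrib, sum_add_distrib, ← mul_sum, ← mul_sum, ← mul_sum, ← sum_mul, e4]
  have := mul_le_mul_of_nonneg_left e2 h1
  have := mul_le_mul_of_nonneg_left (mul_le_mul_of_nonneg_right e3 hN) h3
  linarith

theorem anti_of_lac {S : ℕ} (t0 : 0 < t S) (ht : ∀ j < S, 2 * t (j + 1) ≤ t j) :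
    (∀ j ≤ S, 0 < t j) ∧ ∀ i j, i ≤ j → j ≤ S → t j ≤ t i := by
  have pos : ∀ k j, j + k = S → 0 < t j := by
    intro k
    induction k with
    | zero => intro j h; rw [show j = S by omega]; exact t0
    | succ k ih => intro j h; linarith [ht j (by omega), ih (j + 1) (by omega)]
  refine ⟨fun j hj => pos (S - j) j (by omega), fun i j h => ?_⟩
  induction h with
  | refl => exact fun _ => le_rfl
  | @step k _ ih =>
    intro hk
    have := pos (S - (k + 1)) (k + 1) (by omega)
    linarith [ih (by omega), ht k (by omega)]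

/-- the number of bad steps of a point in one round -/
def b0 (E S : ℕ) : ℕ := (1 + (E + 1) ^ 2) ^ 2 * (Nat.log 2 (288 * S * (288 * S)) + 2)

theorem ltR {S E : ℕ} (hS : 1 ≤ S) (hE : 1 ≤ E) (t0 : 0 < t S)
    (ht : ∀ j < S, 2 * t (j + 1) ≤ t j) (R : ℕ) : ∀ (X : Finset I) (T : I → Finset ℕ) (β : ℕ),
    Set.InjOn a X → Set.InjOn b X → (∀ p ∈ X, Conv S β (T p)) →
    VV S (ee a b t m) X T ≤ 3 ^ R * DD S (ee a b t m) X T +
      6 * 3 ^ R * (1 + β + R * b0 E S) * X.card +
      2 * (2 / E) ^ R * (SS S (ee a b t m) X T * (X.card - 1 : ℕ)) := by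
  classical
  set e := ee a b t m with hedef
  have he : ∀ j p, e j p = -1 ∨ e j p = 0 ∨ e j p = 1 := fun j p => ee_cases j p
  obtain ⟨tp, ta⟩ := anti_of_lac t0 ht
  induction R with
  | zero =>
    intro X T β _ _ _
    have h1 : VV S e X T ≤ DD S e X T + 2 * (SS S e X T * (X.card - 1 : ℕ)) := by
      unfold VV DD SS
      rw [sum_mul, mul_sum, ← sum_add_distrib]
      exact sum_le_sum fun j _ => step_zero (he j) (filter_subset _ _)
    have h2 : (0 : ℝ) ≤ 6 * (1 + β) * X.card := by positivity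
    simp only [pow_zero, Nat.cast_zero, zero_mul, add_zero, one_mul, mul_one]
    linarith
  | succ R ih =>
    intro X T β ia ib hT
    have S1 : (1 : ℝ) ≤ S := by exact_mod_cast hS
    have E1 : (1 : ℝ) ≤ E := by exact_mod_cast hE
    obtain ⟨Za, Ca, σ, u, ha, za⟩ := oneD X a ia (fun _ => 1) (fun _ _ => zero_le_one) hE
      (L := 4 * S) (by omega)
    obtain ⟨Zb, Cb, γ, v, hb, zb⟩ := oneD X b ib (fun _ => 1) (fun _ _ => zero_le_one) hE
      (L := 4 * S) (by omega)
    simp only [sum_const, nsmul_eq_mul, mul_one] at za zb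
    push_cast at za zb
    have hK : (1 : ℝ) ≤ 8 * ((4 * S : ℕ) : ℝ) := by push_cast; linarith
    have hH : ((288 * S : ℕ) : ℝ) = 9 * (8 * ((4 * S : ℕ) : ℝ)) := by push_cast; ring
    let gd : I → ℕ → Prop := fun p j =>
      Good Ca Cb (288 * S : ℕ) (t (j + 1)) (t j) |a p - σ p| |b p - γ p|
    let ts : I → ℕ → Prop := fun p j =>
      |b p - γ p| * ((288 * S : ℕ) : ℝ) < t (j + 1) * |a p - σ p|
    let X' := X.filter fun p => p ∉ Za ∧ p ∉ Zb
    let Ts : I → Finset ℕ := fun p => (T p).filter fun j => gd p j ∧ ts p j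
    let Tc : I → Finset ℕ := fun p => (T p).filter fun j => gd p j ∧ ¬ ts p j
    have hX : X' ⊆ X := filter_subset _ _
    have ng : ∀ p ∈ X, ((range S).filter fun j => ¬ gd p j).card ≤ b0 E S := fun p hp => by
      convert card_not_good t0 ht (H := 288 * S) (by omega) ha.card hb.card
        (abs_pos.2 (sub_ne_zero.2 (ha.ne p hp))) (ρ := |b p - γ p|)
      rfl
    have tsm : ∀ p i j, i ≤ j → j < S → ts p j → ts p i := fun p i j h hj c =>
      c.trans_le (mul_le_mul_of_nonneg_right (ta _ _ (by omega) (by omega)) (abs_nonneg _))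
    have cs : ∀ p ∈ X, Conv S (β + b0 E S) (Ts p) := fun p hp =>
      (hT p hp).cut _ _ (ng p hp) fun i j k hk _ h _ c => tsm p j k h hk c
    have cc : ∀ p ∈ X, Conv S (β + b0 E S) (Tc p) := fun p hp =>
      (hT p hp).cut _ (fun j => ¬ ts p j) (ng p hp) fun i j k hk h h' c _ d =>
        c (tsm p i j h (by omega) d)
    have pr := fun j (hj : j < S) p q (hp : p ∈ X') (hq : q ∈ X') (gp : gd p j) (gq : gd q j)
        (ep : e j p = -1) (eq : e j q = 1) =>
      pairs ha hb hK hH (hX hp) (hX hq) (mem_filter.1 hp).2.1 (mem_filter.1 hp).2.2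
        (mem_filter.1 hq).2.1 (mem_filter.1 hq).2.2 (tp (j + 1) hj) (ta j (j + 1) (by omega) hj)
        (ee_cross ep eq).1 (ee_cross ep eq).2 gp gq
    have ms : ∀ {j p}, p ∈ At X' Ts j → p ∈ X' ∧ j ∈ T p ∧ gd p j ∧ ts p j := fun h => by
      have h1 := mem_filter.1 h
      exact ⟨h1.1, mem_filter.1 h1.2⟩
    have mc : ∀ {j p}, p ∈ At X' Tc j → p ∈ X' ∧ j ∈ T p ∧ gd p j ∧ ¬ ts p j := fun h => by
      have h1 := mem_filter.1 h
      exact ⟨h1.1, mem_filter.1 h1.2⟩
    have us : ∀ j < S, ∀ p ∈ At X' Ts j, ∀ q ∈ At X' Ts j, e j p = -1 → e j q = 1 → u p = u q :=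
      fun j hj p hp q hq ep eq => (pr j hj p q (ms hp).1 (ms hq).1 (ms hp).2.2.1 (ms hq).2.2.1
        ep eq).1 (ms hp).2.2.2 (ms hq).2.2.2
    have vc : ∀ j < S, ∀ p ∈ At X' Tc j, ∀ q ∈ At X' Tc j, e j p = -1 → e j q = 1 → v p = v q :=
      fun j hj p hp q hq ep eq => (pr j hj p q (mc hp).1 (mc hq).1 (mc hp).2.2.1 (mc hq).2.2.1
        ep eq).2.1 (mc hp).2.2.2 (mc hq).2.2.2
    have sm : ∀ {u : I → ℕ × Bool × ℤ},
        (∀ c, ((X.filter fun i => u i = c).card - 1) * E ≤ X.card - 1) → ∀ w,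
        (((X'.filter fun p => u p = w).card - 1 : ℕ) : ℝ) ≤ ((X.card - 1 : ℕ) : ℝ) / E := by
      intro u h w
      rw [le_div_iff₀ (by linarith)]
      have := (Nat.mul_le_mul_right E (Nat.sub_le_sub_right
        (card_le_card (filter_subset_filter (fun p => u p = w) hX)) 1)).trans (h w)
      exact_mod_cast this
    have sub : ∀ w (u : I → ℕ × Bool × ℤ), (X'.filter fun p => u p = w) ⊆ X := fun w u =>
      (filter_subset _ _).trans hX
    have N0 : (0 : ℝ) ≤ ((X.card - 1 : ℕ) : ℝ) / E := by positivity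
    have v1 := side_bound he (X' := X') (T' := Ts) (u := u) (by positivity) (by positivity) N0 us
      (s := SS S e X T) (sum_le_sum fun j _ => sw_mono _ fun p hp =>
        mem_filter.2 ⟨hX (ms hp).1, (ms hp).2.1⟩) (sm ha.small)
      fun w => ih _ Ts _ (ia.mono (sub w u)) (ib.mono (sub w u)) fun p hp => cs p (sub w u hp)
    have v2 := side_bound he (X' := X') (T' := Tc) (u := v) (by positivity) (by positivity) N0 vc
      (s := SS S e X T) (sum_le_sum fun j _ => sw_mono _ fun p hp =>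
        mem_filter.2 ⟨hX (mc hp).1, (mc hp).2.1⟩) (sm hb.small)
      fun w => ih _ Tc _ (ia.mono (sub w v)) (ib.mono (sub w v)) fun p hp => cc p (sub w v hp)
    let B : ℕ → Finset I := fun j => (At X T j).filter fun p => ¬ ((p ∉ Za ∧ p ∉ Zb) ∧ gd p j)
    have split : ∀ (f : I → ℝ) j, ∑ p ∈ At X T j, f p =
        ∑ p ∈ At X' Ts j, f p + ∑ p ∈ At X' Tc j, f p + ∑ p ∈ B j, f p := by
      intro f j
      simp only [At, X', Ts, Tc, B, filter_filter, sum_filter, mem_filter]
      rw [← sum_add_distrib, ← sum_add_distrib]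
      refine sum_congr rfl fun p _ => ?_
      by_cases c1 : j ∈ T p <;> by_cases c2 : p ∉ Za ∧ p ∉ Zb <;> by_cases c3 : gd p j <;>
        by_cases c4 : ts p j <;> simp [c1, c2, c3, c4]
    have bad : ∑ j ∈ range S, ((B j).card : ℝ) ≤ (1 + b0 E S) * X.card := by
      have h1 : ∀ j, ((B j).card : ℝ) ≤
          Za.card + Zb.card + ∑ p ∈ X, if ¬ gd p j then (1 : ℝ) else 0 := fun j => by
        have h2 : B j ⊆ Za ∪ Zb ∪ X.filter fun p => ¬ gd p j := by
          intro p hp
          obtain ⟨h3, h4⟩ := mem_filter.1 hp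
          simp only [mem_union, mem_filter]
          have := (mem_filter.1 h3).1
          tauto
        have h3 := (card_le_card h2).trans ((card_union_le _ _).trans
          (Nat.add_le_add_right (card_union_le _ _) _))
        rw [sum_boole]
        exact_mod_cast h3
      refine (sum_le_sum fun j _ => h1 j).trans ?_
      rw [sum_add_distrib, sum_comm, sum_const, card_range, nsmul_eq_mul]
      have h2 : ∑ p ∈ X, ∑ j ∈ range S, (if ¬ gd p j then (1 : ℝ) else 0) ≤
          X.card * b0 E S := by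
        rw [← nsmul_eq_mul]
        refine sum_le_card_nsmul _ _ _ fun p hp => ?_
        rw [sum_boole]
        exact_mod_cast ng p hp
      linarith
    have w1 : VV S e X T ≤ VV S e X' Ts + VV S e X' Tc + ∑ j ∈ range S, ((B j).card : ℝ) := by
      unfold VV
      rw [← sum_add_distrib, ← sum_add_distrib]
      refine sum_le_sum fun j _ => ?_
      rw [split]
      linarith [sum_abs_le_card (A := B j) (he j)]
    let sd : I → ℝ := fun p => if σ p < a p then 1 else -1
    have hsd : ∀ p, sd p = 1 ∨ sd p = -1 := fun p => by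
      simp only [sd]; split_ifs <;> simp
    have w2 : -((1 + β + b0 E S) * X.card) ≤
        ∑ j ∈ range S, ∑ p ∈ At X' Ts j, sd p * e j p := by
      have h1 : ∑ j ∈ range S, ∑ p ∈ At X' Ts j, sd p * e j p =
          ∑ p ∈ X', sd p * ∑ j ∈ Ts p, e j p := by
        simp only [At, sum_filter]
        rw [sum_comm]
        refine sum_congr rfl fun p hp => ?_
        rw [← sum_filter, mul_sum, filter_mem_eq_inter, inter_eq_right.2 (cs p (hX hp)).sub]
      rw [h1]
      have h2 : ∀ p ∈ X', -(1 + β + b0 E S : ℝ) ≤ sd p * ∑ j ∈ Ts p, e j p := fun p hp => by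
        have h3 := (cs p (hX hp)).tel (g := ind a b t m p) (ind_cases p)
        push_cast at h3
        have h4 : ∑ j ∈ Ts p, e j p = ∑ j ∈ Ts p, (ind a b t m p (j + 1) - ind a b t m p j) := rfl
        rw [← h4, abs_le] at h3
        rcases hsd p with d | d <;> rw [d] <;> linarith [h3.1, h3.2]
      have h3 := card_nsmul_le_sum _ _ _ h2
      have h4 : (X'.card : ℝ) ≤ X.card := by exact_mod_cast card_le_card hX
      have h5 : (0 : ℝ) ≤ 1 + β + b0 E S := by positivity
      rw [nsmul_eq_mul] at h3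
      nlinarith
    have w3 : DD S e X' Ts + DD S e X' Tc ≤ 3 * (DD S e X T + ∑ j ∈ range S, ((B j).card : ℝ)) -
        2 * ∑ j ∈ range S, ∑ p ∈ At X' Ts j, sd p * e j p := by
      unfold DD
      rw [← sum_add_distrib, ← sum_add_distrib, mul_sum, mul_sum, ← sum_sub_distrib]
      refine sum_le_sum fun j hj => ?_
      have hj := mem_range.1 hj
      have h1 := psi (A := At X' Ts j) (B := At X' Tc j) (he j) hsd
        (fun p hp q hq ep eq => by
          simp only [sd, (ha.same p (hX (ms hp).1) q (hX (ms hq).1) (us j hj p hp q hq ep eq)).2.2])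
        (fun p hp q hq ep eq => if_pos ((pr j hj p q (ms hp).1 (mc hq).1 (ms hp).2.2.1
          (mc hq).2.2.1 ep eq).2.2.1 (ms hp).2.2.2 (mc hq).2.2.2))
        (fun p hp q hq ep eq => if_neg ((pr j hj p q (mc hp).1 (ms hq).1 (mc hp).2.2.1
          (ms hq).2.2.1 ep eq).2.2.2 (mc hp).2.2.2 (ms hq).2.2.2).not_gt)
      have h2 := split (e j) j
      have h3 := (abs_sum_le_sum_abs (e j) (B j)).trans (sum_abs_le_card (he j))
      have h4 := abs_sub (∑ p ∈ At X T j, e j p) (∑ p ∈ B j, e j p)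
      rw [show ∑ p ∈ At X T j, e j p - ∑ p ∈ B j, e j p =
        ∑ p ∈ At X' Ts j, e j p + ∑ p ∈ At X' Tc j, e j p by rw [h2]; ring] at h4
      linarith
    have h4 : (X'.card : ℝ) ≤ X.card := by exact_mod_cast card_le_card hX
    set n : ℝ := (X.card : ℝ)
    set c : ℝ := (b0 E S : ℝ)
    set P : ℝ := 3 ^ R with hP
    have P1 : 1 ≤ P := one_le_pow₀ (by norm_num)
    have n0 : 0 ≤ n := by positivity
    have c0 : 0 ≤ c := by positivity
    have β0 : (0 : ℝ) ≤ β := by positivity
    have R0 : (0 : ℝ) ≤ R := by positivity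
    set G : ℝ := 1 + β + (R + 1) * c with hG
    have g1 : 1 + β + c ≤ G := by nlinarith
    have g2 : 0 ≤ G := by linarith
    have x1 : DD S e X' Ts + DD S e X' Tc ≤ 3 * DD S e X T + 5 * (G * n) := by nlinarith
    have x2 := mul_le_mul_of_nonneg_left x1 (by linarith : 0 ≤ P)
    have x3 : (1 + c) * n ≤ P * (G * n) := by
      have : (1 + c) * n ≤ G * n := mul_le_mul_of_nonneg_right (by linarith) n0
      nlinarith [mul_nonneg g2 n0]
    have x4 : 6 * P * G * X'.card ≤ 6 * P * G * n :=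
      mul_le_mul_of_nonneg_left h4 (by positivity)
    have x5 : (1 + ((β + b0 E S : ℕ) : ℝ) + R * c) = G := by push_cast; ring
    rw [x5] at v1 v2
    have x6 : (2 : ℝ) * (2 / E) ^ (R + 1) * (SS S e X T * (X.card - 1 : ℕ)) =
        2 * (2 * (2 / E) ^ R * (SS S e X T * (((X.card - 1 : ℕ) : ℝ) / E))) := by ring
    rw [x6, pow_succ, ← hP]
    push_cast
    rw [← hG]
    linarith

end Pool.Agent.Lib.MP_d308c3_co.LT
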